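import Pool.Agent.X298.ST.Defs

/-!
# Artin twists of a motive and rotated sums over Frobenius cosets: definitions
-/

set_option autoImplicit false

open Filter Topology
open IsDedekindDomain NumberField

namespace Pool.Agent.X298.ST

variable {K F : Type} [Field K] [NumberField K] [Field F] [NumberField F] [Algebra K F]

/-- `|c_v(k)| ≤ d q_v^{kw/2}` for a constant `d`: traces of the Frobenius powers on a pure motive of weight `w`. -/
def IsPure {S : Set (HeightOneSpectrum (𝓞 K))} (c : Places S → ℕ → ℂ) (w : ℤ) : Prop :=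
  ∃ d : ℝ, ∀ v k, ‖c v k‖ ≤ d * ((nrm v : ℝ) ^ ((w : ℝ) / 2)) ^ k

/-- `log L_S(s, M ⊗ f) = ∑_{v ∉ S} ∑_{k ≥ 1} c_v(k) f(v^k) q_v^{-ks} / k`. -/
noncomputable def logTwist {S : Set (HeightOneSpectrum (𝓞 K))} (P : Places S → Ideal (𝓞 F))
    (c : Places S → ℕ → ℂ) (f : (F ≃ₐ[K] F) → ℂ) (s : ℂ) : ℂ :=
  ∑' x : Places S × ℕ, c x.1 (x.2 + 1) * value P f x.1 (x.2 + 1) *
    ((nrm x.1 : ℂ) ^ (-s)) ^ (x.2 + 1) / (x.2 + 1)

/-- `Λ` is `L_S(s, M ⊗ f)`: the exponential of the series for `Re s > w/2 + 1`, continued to a function meromorphic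
at the real points of `[n, w/2 + 1]`. -/
structure IsTwistL {S : Set (HeightOneSpectrum (𝓞 K))} (P : Places S → Ideal (𝓞 F))
    (c : Places S → ℕ → ℂ) (w n : ℤ) (f : (F ≃ₐ[K] F) → ℂ) (Λ : ℂ → ℂ) : Prop where
  eq : ∀ s : ℂ, (w : ℝ) / 2 + 1 < s.re → Λ s = Complex.exp (logTwist P c f s)
  mero : ∀ x : ℝ, (n : ℝ) ≤ x → x ≤ (w : ℝ) / 2 + 1 → MeromorphicAt Λ (x : ℂ)

/-- The term `- c_v(k) f(v^k) q_v^{-kn} e^{iγ k log q_v / T} / (k Γ(1 + k log q_v / T))`, `v = x.1`, `k = x.2 + 1`. -/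
noncomputable def twistTerm {S : Set (HeightOneSpectrum (𝓞 K))} (P : Places S → Ideal (𝓞 F))
    (c : Places S → ℕ → ℂ) (n : ℤ) (f : (F ≃ₐ[K] F) → ℂ) (γ T : ℝ) (x : Places S × ℕ) : ℂ :=
  -(c x.1 (x.2 + 1) * value P f x.1 (x.2 + 1)) * (((nrm x.1 : ℂ) ^ n)⁻¹) ^ (x.2 + 1) *
      Complex.exp ((γ * ((x.2 + 1) * Real.log (nrm x.1) / T) : ℝ) * Complex.I) /
    (((x.2 + 1) * Real.Gamma (1 + (x.2 + 1) * Real.log (nrm x.1) / T) : ℝ) : ℂ)

/-- The rotated sum `S_f(T)` of `M ⊗ f` at `n`. -/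
noncomputable def twistSum {S : Set (HeightOneSpectrum (𝓞 K))} (P : Places S → Ideal (𝓞 F))
    (c : Places S → ℕ → ℂ) (n : ℤ) (f : (F ≃ₐ[K] F) → ℂ) (γ T : ℝ) : ℂ :=
  ∑' x, twistTerm P c n f γ T x

/-- The rotated sum `S_C(T)` of a conjugacy class `C`. -/
noncomputable def twistClass {S : Set (HeightOneSpectrum (𝓞 K))} (P : Places S → Ideal (𝓞 F))
    (c : Places S → ℕ → ℂ) (n : ℤ) (γ T : ℝ) (C : ConjClasses (F ≃ₐ[K] F)) : ℂ :=
  open Classical in twistSum P c n (fun g => if ConjClasses.mk g = C then 1 else 0) γ T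

end Pool.Agent.X298.ST
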