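import Pool.Agent.X287.CR4

/-!
# The rotated law for bounded coefficients

As `Pool.Agent.X287.CR.CSys.law`, for series `∑_{v,k} b(v,k) q_v^{-ks} / k` with arbitrary bounded coefficients
(for instance the values of a class function of a Galois group on powers of Frobenius cosets).
-/

set_option autoImplicit false

namespace Pool.Agent.X298.ST

open Complex Filter Topology Set
open Pool.Agent.W189.ML Pool.Agent.W189.LC Pool.Agent.W187.UR Pool.Agent.X287.CR

variable {X : Type}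

/-- places with norms `q v` -/
structure QSys (q : X → ℕ) : Prop where
  cnt : Countable X
  two_le : ∀ v, 2 ≤ q v
  sum : ∀ σ : ℝ, 1 < σ → Summable fun v => (q v : ℝ) ^ (-σ)

/-- the coefficients `b(v,k) / k` -/
noncomputable def co (b : X × ℕ → ℂ) (x : X × ℕ) : ℂ := b x / (x.2 + 1)

variable {q : X → ℕ} {b : X × ℕ → ℂ} {B : ℝ}

theorem QSys.csys (G : QSys q) : CSys 0 q (fun (_ : X) (_ : Fin 1) => (1 : ℂ)) where
  cnt := G.cnt
  two_le := G.two_le
  sum := G.sum
  le := fun v i => by simp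

theorem cc_one (x : X × ℕ) : cc q (fun (_ : X) (_ : Fin 1) => (1 : ℂ)) 0 x = 1 / (x.2 + 1) := by
  unfold cc
  simp

theorem co_le (hB : ∀ x, ‖b x‖ ≤ B) (x : X × ℕ) :
    ‖co b x‖ ≤ B * ‖cc q (fun (_ : X) (_ : Fin 1) => (1 : ℂ)) 0 x‖ := by
  rw [cc_one]
  unfold co
  rw [norm_div, norm_div, norm_one]
  have h1 : 0 ≤ ‖((x.2 : ℂ) + 1)‖ := norm_nonneg _
  rw [← mul_div_assoc, mul_one]
  exact div_le_div_of_nonneg_right (hB x) h1

theorem co_summable (G : QSys q) (hB : ∀ x, ‖b x‖ ≤ B) {σ : ℝ} (hσ : 1 < σ) :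
    Summable fun x => ‖co b x‖ * Real.exp (-(σ * lam q x)) := by
  have h1 := (G.csys.summable (s₀ := 0) (σ := σ) (by simpa using hσ)).mul_left B
  refine Summable.of_nonneg_of_le (fun x => by positivity) (fun x => ?_) h1
  have h2 := mul_le_mul_of_nonneg_right (co_le (q := q) hB x) (Real.exp_pos (-(σ * lam q x))).le
  linarith

theorem co_sd (G : QSys q) (hB : ∀ x, ‖b x‖ ≤ B) : SD (lam q) (co b) where
  lam_pos := G.csys.lam_nonneg
  sum := co_summable G hB (by norm_num)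

theorem co_csummable (G : QSys q) (hB : ∀ x, ‖b x‖ ≤ B) {w : ℂ} (hw : 1 < w.re) :
    Summable fun x : X × ℕ => co b x * exp (-(w * lam q x)) := by
  refine Summable.of_norm_bounded (co_summable G hB (σ := w.re) hw) fun x => ?_
  rw [norm_mul, Complex.norm_exp]
  have : (-(w * lam q x)).re = -(w.re * lam q x) := by rw [Complex.neg_re, Complex.re_mul_ofReal]
  rw [this]

theorem sr_analytic (G : QSys q) (hB : ∀ x, ‖b x‖ ≤ B) {w : ℂ} (hw : 1 < w.re) :
    AnalyticAt ℂ (sr (lam q) (co b)) w := by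
  set σ : ℝ := (1 + w.re) / 2 with hσ
  have hσ1 : 1 < σ := by rw [hσ]; linarith
  have hσw : σ < w.re := by rw [hσ]; linarith
  have hopen : IsOpen {z : ℂ | σ < z.re} := isOpen_lt continuous_const Complex.continuous_re
  have h1 : DifferentiableOn ℂ (sr (lam q) (co b)) {z : ℂ | σ < z.re} := by
    unfold sr
    refine Complex.differentiableOn_tsum_of_summable_norm (co_summable G hB hσ1) (fun i => ?_) hopen
      (fun i z hz => ?_)
    · exact Differentiable.differentiableOn (by fun_prop)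
    · rw [norm_mul, Complex.norm_exp]
      refine mul_le_mul_of_nonneg_left ?_ (norm_nonneg _)
      apply Real.exp_le_exp.2
      have h2 : (-(z * lam q i)).re = -(z.re * lam q i) := by
        rw [Complex.neg_re, Complex.re_mul_ofReal]
      rw [h2]
      have hz' : σ < z.re := hz
      have := G.csys.lam_nonneg i
      nlinarith
  exact h1.analyticAt (hopen.mem_nhds hσw)

/-- the term `b(v,k) e^{iγ k log q / T} / (k Γ(1 + k log q / T))`, `k = x.2 + 1` -/
noncomputable def rt (q : X → ℕ) (b : X × ℕ → ℂ) (γ T : ℝ) (x : X × ℕ) : ℂ :=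
  b x * exp ((γ * ((x.2 + 1) * Real.log (q x.1) / T) : ℝ) * I) /
    (((x.2 + 1) * Real.Gamma (1 + (x.2 + 1) * Real.log (q x.1) / T) : ℝ) : ℂ)

/-- the rotated sum -/
noncomputable def RS (q : X → ℕ) (b : X × ℕ → ℂ) (γ T : ℝ) : ℂ := ∑' x, rt q b γ T x

theorem rt_eq (b : X × ℕ → ℂ) (γ T : ℝ) (x : X × ℕ) : rt q b γ T x =
    co b x * exp ((γ * (lam q x / T) : ℝ) * I) * (om (lam q x / T) : ℂ) := by
  unfold rt om co lam
  push_cast
  field_simp

theorem rt_norm_le (G : QSys q) (hB : ∀ x, ‖b x‖ ≤ B) (γ : ℝ) {T : ℝ} (hT : 0 < T) (x : X × ℕ) :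
    ‖rt q b γ T x‖ ≤ ‖co b x‖ * ((Real.exp (Real.exp (2 * T)) + 1) * Real.exp (-(2 * lam q x))) := by
  rw [rt_eq, norm_mul, norm_mul, Complex.norm_exp_ofReal_mul_I, mul_one]
  have h1 : 0 ≤ lam q x / T := div_nonneg (G.csys.lam_nonneg x) hT.le
  have h2 := om_le (a := 2 * T) (v := lam q x / T) (by linarith) h1
  have h3 : 2 * T * (lam q x / T) = 2 * lam q x := by field_simp
  rw [h3] at h2
  refine mul_le_mul_of_nonneg_left ?_ (norm_nonneg _)
  rw [Complex.norm_real, Real.norm_eq_abs, abs_of_nonneg (om_nonneg h1)]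
  exact h2

theorem rt_summable (G : QSys q) (hB : ∀ x, ‖b x‖ ≤ B) (γ : ℝ) {T : ℝ} (hT : 0 < T) :
    Summable fun x => ‖rt q b γ T x‖ := by
  have h := (co_summable G hB (σ := 2) (by norm_num)).mul_left (Real.exp (Real.exp (2 * T)) + 1)
  refine Summable.of_nonneg_of_le (fun x => norm_nonneg _) (fun x => ?_) h
  refine (rt_norm_le G hB γ hT x).trans (le_of_eq ?_)
  ring

/-- **the rotated law at `0`, bounded coefficients** -/
theorem law (G : QSys q) (hB : ∀ x, ‖b x‖ ≤ B) {L : ℂ → ℂ}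
    (hL : ∀ s : ℂ, 1 < s.re → L s = exp (sr (lam q) (co b) s))
    (hmer : ∀ x : ℝ, 0 ≤ x → x ≤ 1 → MeromorphicAt L (x : ℂ)) {γ : ℝ} (hγ : Real.pi / 2 < γ) :
    ∃ (m : ℤ) (r₀ : ℂ), meromorphicOrderAt L 0 = m ∧ meromorphicTrailingCoeffAt L 0 = exp r₀ ∧
      (fun T : ℝ => -RS q b γ T - (m * (Real.log T - Lam γ) - r₀)) =O[atTop]
        (fun T : ℝ => 1 / T) := by
  have := G.cnt
  have han : ∀ s : ℂ, 1 < s.re → AnalyticAt ℂ L s ∧ L s ≠ 0 := by
    intro s hs
    have hopen : IsOpen {z : ℂ | 1 < z.re} := isOpen_lt continuous_const Complex.continuous_re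
    constructor
    · have h1 := (sr_analytic G hB hs).cexp
      refine h1.congr ?_
      filter_upwards [hopen.mem_nhds hs] with z hz
      exact (hL z hz).symm
    · rw [hL s hs]
      exact Complex.exp_ne_zero _
  have hmL : ∀ x : ℝ, 0 ≤ x → MeromorphicAt L (x : ℂ) := by
    intro x hx
    by_cases h : x ≤ 1
    · exact hmer x hx h
    · push Not at h
      exact (han (x : ℂ) (by simpa using h)).1.meromorphicAt
  have hord2 : meromorphicOrderAt L ((2 : ℝ) : ℂ) = 0 := by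
    have h1 := han ((2 : ℝ) : ℂ) (by simp)
    rw [h1.1.meromorphicOrderAt_eq, h1.1.analyticOrderAt_eq_zero.2 h1.2]
    rfl
  have hmon : MeromorphicOn L ((fun x : ℝ => (x : ℂ)) '' Icc 0 2) := by
    rintro _ ⟨x, hx, rfl⟩
    exact hmL x hx.1
  have hcon : IsPreconnected ((fun x : ℝ => (x : ℂ)) '' Icc 0 2) :=
    isPreconnected_Icc.image _ (by fun_prop)
  have htop : ∀ x ∈ Icc (0 : ℝ) 2, meromorphicOrderAt L (x : ℂ) ≠ ⊤ := by
    intro x hx
    refine hmon.meromorphicOrderAt_ne_top_of_isPreconnected (x := ((2 : ℝ) : ℂ)) hcon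
      ⟨2, ⟨by norm_num, le_rfl⟩, rfl⟩ ⟨x, hx, rfl⟩ ?_
    rw [hord2]
    simp
  have h0top := htop 0 ⟨le_rfl, by norm_num⟩
  rw [Complex.ofReal_zero] at h0top
  obtain ⟨m, hm⟩ := WithTop.ne_top_iff_exists.1 h0top
  obtain ⟨η, B', L', r₀, hL', hL2, hr0⟩ := bel_c L (sr (lam q) (co b))
    (fun x hx => hmL x hx.1) htop (fun w hw => sr_analytic G hB hw)
    (fun w hw => hL w hw) m hm.symm
  have D := co_sd G hB
  have D' : SD (lam q) (fun x => -co b x) := ⟨D.lam_pos, by simpa using D.sum⟩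
  have hneg : ∀ w, sr (lam q) (fun x => -co b x) w = -sr (lam q) (co b) w := by
    intro w
    unfold sr
    rw [← tsum_neg]
    exact tsum_congr fun i => by ring
  have hcneg : ∀ T, cm (lam q) (fun x => -co b x) γ T = -RS q b γ T := by
    intro T
    unfold cm RS
    rw [← tsum_neg]
    exact tsum_congr fun i => by rw [rt_eq]; ring
  obtain ⟨C, T₀, hC, hT₀, h⟩ := refc D' hγ m r₀ L' η B' hL' (fun w h1 h2 h3 => by
    rw [hneg, neg_neg]
    exact hL2 w h1 h2 h3)
  refine ⟨m, r₀, hm.symm, hr0.symm, ?_⟩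
  rw [Asymptotics.isBigO_iff]
  refine ⟨C, ?_⟩
  filter_upwards [eventually_ge_atTop T₀] with T hT
  have hT1 : 1 ≤ T := hT₀.trans hT
  have h2 := h T hT
  rw [hcneg, Lam_eq] at h2
  have e1 : -RS q b γ T - (m * (Real.log T - Lam γ) - r₀) =
      -RS q b γ T - (m * Real.log T - m * Lam γ - r₀) := by ring
  rw [e1]
  refine h2.trans (le_of_eq ?_)
  rw [Real.norm_eq_abs, abs_of_pos (by positivity)]
  ring

end Pool.Agent.X298.ST
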