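import Pool.Agent.X298.ST.Defs
import Pool.Agent.X298.ST.Law
import Pool.Agent.H921R2.TatePole.Dedekind
import Mathlib.RingTheory.Frobenius
import Mathlib.NumberTheory.NumberField.InfinitePlace.Basic

/-!
# Artin `L`-series at `0` and rotated sums over Frobenius cosets
-/

set_option autoImplicit false

open Filter Topology Asymptotics
open IsDedekindDomain NumberField

namespace Pool.Agent.X298.ST

open Pool.Agent.X287.CR Pool.Agent.W187.UR
open Pool.Agent.H921R2.TatePole (nm two_le_nm nm_summable)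

variable {K L : Type} [Field K] [NumberField K] [Field L] [NumberField L] [Algebra K L]

theorem fin_gal : Finite (L ≃ₐ[K] L) := by
  have : Module.Finite K L := Module.Finite.of_restrictScalars_finite ℚ K L
  infer_instance

theorem qsys (S : Set (HeightOneSpectrum (𝓞 K))) : QSys (nrm (S := S)) where
  cnt := by
    have h0 : Countable (HeightOneSpectrum (𝓞 K)) := by
      have h1 := (nm_summable (K := K) (x := 2) (by norm_num)).countable_support
      have h2 : Function.support (fun v : HeightOneSpectrum (𝓞 K) => (nm v : ℝ) ^ (-(2 : ℝ))) =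
          Set.univ := by
        ext v
        simp only [Function.mem_support, Set.mem_univ, iff_true]
        have hp2 : (2 : ℝ) ≤ nm v := by exact_mod_cast two_le_nm v
        have : (0 : ℝ) < nm v := by linarith
        positivity
      rwa [h2, Set.countable_univ_iff] at h1
    exact inferInstance
  two_le := fun v => two_le_nm v.1
  sum := fun σ hσ => (nm_summable (K := K) hσ).comp_injective Subtype.val_injective

section frob

variable {S : Set (HeightOneSpectrum (𝓞 K))} {P : Places S → Ideal (𝓞 L)}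

theorem frob_nonempty [IsGalois K L] (hP : IsAbove P) (v : Places S) (k : ℕ) :
    (frob P v k).Nonempty := by
  have := fin_gal (K := K) (L := L)
  obtain ⟨hprime, hcomap⟩ := hP v
  have hbot : P v ≠ ⊥ := by
    intro h
    rw [h] at hcomap
    have h1 : (⊥ : Ideal (𝓞 L)).comap (algebraMap (𝓞 K) (𝓞 L)) = ⊥ :=
      Ideal.comap_bot_of_injective _ (FaithfulSMul.algebraMap_injective (𝓞 K) (𝓞 L))
    exact v.1.ne_bot (hcomap.symm.trans h1)
  have hfin : Finite (𝓞 L ⧸ P v) := Ideal.finiteQuotientOfFreeOfNeBot _ hbot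
  obtain ⟨F, hF⟩ := IsArithFrobAt.exists_of_isInvariant (𝓞 K) (L ≃ₐ[K] L) (P v)
  have hcard : Nat.card (𝓞 K ⧸ (P v).under (𝓞 K)) = nrm v := by
    have h1 : (P v).under (𝓞 K) = v.1.asIdeal := hcomap
    rw [h1]
    rfl
  have hF' : ∀ x : 𝓞 L, F • x - x ^ nrm v ∈ P v := by
    intro x
    have := hF x
    rw [hcard] at this
    exact this
  have hpow : ∀ (a b : 𝓞 L) (n : ℕ), a - b ∈ P v → a ^ n - b ^ n ∈ P v := by
    intro a b n h
    obtain ⟨c, hc⟩ := sub_dvd_pow_sub_pow a b n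
    rw [hc]
    exact Ideal.mul_mem_right _ _ h
  refine ⟨F ^ k, ?_⟩
  induction k with
  | zero =>
    intro x
    simp
  | succ k ih =>
    intro x
    have h1 : F ^ (k + 1) • x = F ^ k • (F • x) := by rw [pow_succ, mul_smul]
    have h2 := ih (F • x)
    have h3 := hpow (F • x) (x ^ nrm v) (nrm v ^ k) (hF' x)
    have h4 : F ^ (k + 1) • x - x ^ (nrm v ^ (k + 1)) =
        (F ^ k • (F • x) - (F • x) ^ (nrm v ^ k)) + ((F • x) ^ (nrm v ^ k) - (x ^ nrm v) ^ (nrm v ^ k)) := by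
      rw [h1, ← pow_mul, pow_succ, mul_comm (nrm v ^ k) (nrm v)]
      ring
    rw [h4]
    exact Ideal.add_mem _ h2 h3

theorem value_le (P : Places S → Ideal (𝓞 L)) (f : (L ≃ₐ[K] L) → ℂ) :
    ∃ B : ℝ, ∀ v k, ‖value P f v k‖ ≤ B := by
  have := fin_gal (K := K) (L := L)
  have := Fintype.ofFinite (L ≃ₐ[K] L)
  refine ⟨∑ g, ‖f g‖, fun v k => ?_⟩
  have hB : 0 ≤ ∑ g, ‖f g‖ := Finset.sum_nonneg fun g _ => norm_nonneg _
  unfold value
  have hfin : (frob P v k).Finite := Set.toFinite _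
  rw [norm_div, Complex.norm_natCast]
  rcases Nat.eq_zero_or_pos (frob P v k).ncard with h0 | h0
  · rw [h0]
    simpa using hB
  have h0' : (0 : ℝ) < (frob P v k).ncard := by exact_mod_cast h0
  rw [div_le_iff₀ h0', finsum_mem_eq_finite_toFinset_sum f hfin]
  have h1 : ‖∑ i ∈ hfin.toFinset, f i‖ ≤ ∑ g, ‖f g‖ :=
    (norm_sum_le _ _).trans (Finset.sum_le_univ_sum_of_nonneg fun g => norm_nonneg _)
  refine h1.trans (le_mul_of_one_le_right hB ?_)
  exact_mod_cast h0

theorem value_add (P : Places S → Ideal (𝓞 L)) (f g : (L ≃ₐ[K] L) → ℂ) (v : Places S) (k : ℕ) :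
    value P (f + g) v k = value P f v k + value P g v k := by
  have := fin_gal (K := K) (L := L)
  have hfin : (frob P v k).Finite := Set.toFinite _
  unfold value
  rw [← add_div]
  congr 1
  simp only [Pi.add_apply]
  exact finsum_mem_add_distrib hfin

theorem value_smul (P : Places S → Ideal (𝓞 L)) (c : ℂ) (f : (L ≃ₐ[K] L) → ℂ) (v : Places S) (k : ℕ) :
    value P (c • f) v k = c * value P f v k := by
  have := fin_gal (K := K) (L := L)
  have hfin : (frob P v k).Finite := Set.toFinite _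
  unfold value
  rw [← mul_div_assoc]
  congr 1
  simp only [Pi.smul_apply, smul_eq_mul]
  rw [finsum_mem_eq_finite_toFinset_sum _ hfin, finsum_mem_eq_finite_toFinset_sum _ hfin, Finset.mul_sum]

end frob

section law

variable {S : Set (HeightOneSpectrum (𝓞 K))} {P : Places S → Ideal (𝓞 L)}

theorem term_summable (P : Places S → Ideal (𝓞 L)) (f : (L ≃ₐ[K] L) → ℂ) (γ : ℝ) {T : ℝ} (hT : 0 < T) :
    Summable fun x => ‖term P f γ T x‖ := by
  obtain ⟨B, hB⟩ := value_le P f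
  exact rt_summable (qsys S) (b := fun x => value P f x.1 (x.2 + 1)) (fun x => hB _ _) γ hT

theorem rotated_add (P : Places S → Ideal (𝓞 L)) (f g : (L ≃ₐ[K] L) → ℂ) (γ : ℝ) {T : ℝ} (hT : 0 < T) :
    rotated P (f + g) γ T = rotated P f γ T + rotated P g γ T := by
  unfold rotated
  rw [← (term_summable P f γ hT).of_norm.tsum_add (term_summable P g γ hT).of_norm]
  refine tsum_congr fun x => ?_
  unfold term
  rw [value_add]
  ring

theorem rotated_smul (P : Places S → Ideal (𝓞 L)) (c : ℂ) (f : (L ≃ₐ[K] L) → ℂ) (γ T : ℝ) :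
    rotated P (c • f) γ T = c * rotated P f γ T := by
  unfold rotated
  rw [← tsum_mul_left]
  refine tsum_congr fun x => ?_
  unfold term
  rw [value_smul]
  ring

theorem rotated_sum {ι : Type} (P : Places S → Ideal (𝓞 L)) (s : Finset ι) (c : ι → ℂ)
    (f : ι → (L ≃ₐ[K] L) → ℂ) (γ : ℝ) {T : ℝ} (hT : 0 < T) :
    rotated P (∑ i ∈ s, c i • f i) γ T = ∑ i ∈ s, c i * rotated P (f i) γ T := by
  classical
  induction s using Finset.induction_on with
  | empty =>
    simp only [Finset.sum_empty]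
    have := rotated_smul P 0 (0 : (L ≃ₐ[K] L) → ℂ) γ T
    simpa using this
  | insert a s ha ih =>
    rw [Finset.sum_insert ha, Finset.sum_insert ha, rotated_add P _ _ γ hT, ih, rotated_smul]

/-- class functions -/
theorem rotated_class (P : Places S → Ideal (𝓞 L)) (F : ConjClasses (L ≃ₐ[K] L) → ℂ) (γ : ℝ) {T : ℝ}
    (hT : 0 < T) :
    rotated P (fun g => F (ConjClasses.mk g)) γ T = ∑ᶠ C, F C * classSum P γ T C := by
  classical
  have := fin_gal (K := K) (L := L)
  have : Finite (ConjClasses (L ≃ₐ[K] L)) := Quotient.finite _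
  have := Fintype.ofFinite (ConjClasses (L ≃ₐ[K] L))
  have h1 : (fun g : L ≃ₐ[K] L => F (ConjClasses.mk g)) =
      ∑ C, F C • fun g : L ≃ₐ[K] L => if ConjClasses.mk g = C then (1 : ℂ) else 0 := by
    funext g
    rw [Finset.sum_apply]
    simp
  rw [h1, rotated_sum P _ _ _ γ hT, finsum_eq_sum_of_fintype]
  refine Finset.sum_congr rfl fun C _ => ?_
  unfold classSum
  congr!

theorem logL_eq (P : Places S → Ideal (𝓞 L)) (f : (L ≃ₐ[K] L) → ℂ) (s : ℂ) :
    logL P f s = sr (lam nrm) (co fun x : Places S × ℕ => value P f x.1 (x.2 + 1)) s := by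
  unfold logL sr
  refine tsum_congr fun x => ?_
  unfold co lam
  rw [(qsys S).csys.cpow_eq, ← Complex.exp_nat_mul]
  have e : (((x.2 + 1 : ℕ) : ℂ) * -(s * (Real.log (nrm x.1) : ℝ))) =
      -(s * (((x.2 + 1) * Real.log (nrm x.1) : ℝ) : ℂ)) := by
    push_cast
    ring
  rw [e]
  ring

/-- the asymptotic formula -/
theorem asy {f : (L ≃ₐ[K] L) → ℂ} {Λ : ℂ → ℂ} (h : IsArtinL P f Λ) {γ : ℝ}
    (hγ : Real.pi / 2 < γ) : ∃ (m : ℤ) (r₀ : ℂ), meromorphicOrderAt Λ 0 = m ∧
      lead Λ = Complex.exp r₀ ∧ Asy (Lambda γ) (fun T => -rotated P f γ T) m r₀ := by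
  obtain ⟨B, hB⟩ := value_le P f
  obtain ⟨m, r₀, h1, h2, h3⟩ := law (qsys S) (b := fun x => value P f x.1 (x.2 + 1)) (fun x => hB _ _)
    (L := Λ) (fun s hs => by rw [h.eq s hs, logL_eq]) h.mero hγ
  exact ⟨m, r₀, h1, h2, h3⟩

/-- the approximations converge -/
theorem approx_iff {f : (L ≃ₐ[K] L) → ℂ} {Λ : ℂ → ℂ} (h : IsArtinL P f Λ) {γ : ℝ}
    (hγ : Real.pi / 2 < γ) {R A : ℂ} (hR : R ≠ 0) (hA : A ≠ 0) (r : ℤ) :
    (meromorphicOrderAt Λ 0 = r ∧ R / lead Λ = A) ↔ Tendsto (approx P f γ r R) atTop (𝓝 A) := by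
  obtain ⟨m, r₀, h1, h2, h3⟩ := asy h hγ
  have hB : R / A ≠ 0 := div_ne_zero hR hA
  have h4 := h3.lead_iff r hB
  rw [h1, h2]
  have e1 : (((m : WithTop ℤ) = (r : WithTop ℤ)) ∧ R / Complex.exp r₀ = A) ↔
      (m = r ∧ Complex.exp r₀ = R / A) := by
    have h0 := Complex.exp_ne_zero r₀
    refine and_congr WithTop.coe_inj ?_
    constructor
    · rintro rfl
      field_simp
    · intro h5
      rw [h5]
      field_simp
  rw [e1, h4]
  have hc : R * Complex.exp (r * Lambda γ) ≠ 0 := mul_ne_zero hR (Complex.exp_ne_zero _)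
  have e2 : approx P f γ r R = fun T : ℝ => (R * Complex.exp (r * Lambda γ)) *
      (Complex.exp (-rotated P f γ T) / (T : ℂ) ^ r) := by
    funext T
    unfold approx
    rw [sub_eq_add_neg, Complex.exp_add]
    ring
  have e3 : (R * Complex.exp (r * Lambda γ)) * (Complex.exp (-(r * Lambda γ)) / (R / A)) = A := by
    rw [Complex.exp_neg]
    have := Complex.exp_ne_zero (r * Lambda γ)
    field_simp
  constructor
  · intro h5
    have h6 := h5.const_mul (R * Complex.exp (r * Lambda γ))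
    rw [e3] at h6
    rw [e2]
    exact h6
  · intro h5
    rw [e2] at h5
    have h6 := h5.const_mul (R * Complex.exp (r * Lambda γ))⁻¹
    have e4 : (R * Complex.exp (r * Lambda γ))⁻¹ * A = Complex.exp (-(r * Lambda γ)) / (R / A) := by
      rw [inv_mul_eq_iff_eq_mul₀ hc]
      exact e3.symm
    rw [e4] at h6
    refine h6.congr fun T => ?_
    rw [← mul_assoc, inv_mul_cancel₀ hc, one_mul]

/-- the rate of convergence -/
theorem approx_rate {f : (L ≃ₐ[K] L) → ℂ} {Λ : ℂ → ℂ} (h : IsArtinL P f Λ) {γ : ℝ}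
    (hγ : Real.pi / 2 < γ) (R : ℂ) {r : ℤ} (hr : meromorphicOrderAt Λ 0 = r) :
    (fun T : ℝ => approx P f γ r R T - R / lead Λ) =O[atTop] (fun T : ℝ => 1 / T) := by
  obtain ⟨m, r₀, h1, h2, h3⟩ := asy h hγ
  have hm : m = r := by
    rw [hr] at h1
    exact_mod_cast h1.symm
  subst hm
  rw [h2]
  set Er : ℝ → ℂ := fun T => -rotated P f γ T - (m * (Real.log T - Lambda γ) - r₀) with hEr
  have hE0 : Tendsto Er atTop (𝓝 0) := h3.tend
  have hEO : Er =O[atTop] (fun T : ℝ => 1 / T) := h3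
  have hexp : (fun T : ℝ => Complex.exp (Er T) - 1) =O[atTop] Er := by
    have h5 : (fun z : ℂ => Complex.exp z - 1) =O[𝓝 0] (fun z : ℂ => z) := by
      have h6 := (Complex.hasDerivAt_exp 0).isBigO_sub
      simpa using h6
    exact h5.comp_tendsto hE0
  have h7 : (fun T : ℝ => approx P f γ m R T - R / Complex.exp r₀) =ᶠ[atTop]
      fun T : ℝ => (R / Complex.exp r₀) * (Complex.exp (Er T) - 1) := by
    filter_upwards [eventually_gt_atTop (0 : ℝ)] with T hT
    have hTm : (T : ℂ) ^ m = Complex.exp (m * Real.log T) := by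
      rw [Complex.exp_int_mul, ← Complex.ofReal_exp, Real.exp_log hT]
    unfold approx
    have e1 : (m * Lambda γ - rotated P f γ T : ℂ) = m * Real.log T - r₀ + Er T := by
      rw [hEr]
      ring
    rw [e1, hTm, Complex.exp_add, Complex.exp_sub]
    have h8 := Complex.exp_ne_zero r₀
    have h9 := Complex.exp_ne_zero (m * Real.log T : ℂ)
    field_simp
  exact ((hexp.trans hEO).const_mul_left _).congr' h7.symm EventuallyEq.rfl

end law

/-- an algebraic integer all of whose conjugates have absolute value `< 1` is zero -/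
theorem int_zero {E : Type} [Field E] [NumberField E] (x : 𝓞 E)
    (hx : ∀ τ : E →+* ℂ, ‖τ (x : E)‖ < 1) : x = 0 := by
  by_contra h0
  obtain ⟨w⟩ : Nonempty (InfinitePlace E) := inferInstance
  have h1 := InfinitePlace.one_le_of_lt_one (w := w) (a := x) h0 (fun z _ => by
    rw [← InfinitePlace.norm_embedding_eq]
    exact hx _)
  rw [← InfinitePlace.norm_embedding_eq] at h1
  exact absurd (hx w.embedding) (not_lt.2 h1)

/-- the lattice criterion -/
theorem lattice {E : Type} [Field E] [NumberField E] {b : (E →+* ℂ) → ℝ → ℂ} {A : (E →+* ℂ) → ℂ}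
    (hb : ∀ τ, (fun T : ℝ => b τ T - A τ) =O[atTop] (fun T : ℝ => 1 / T)) :
    ((∃ e : E, ∀ τ, A τ = τ e) ↔ ∃ N : ℕ, 1 ≤ N ∧ ∀ ε : ℝ, 0 < ε → ∀ T₀ : ℝ, ∃ T ≥ T₀, ∃ x : 𝓞 E,
      ∀ τ, ‖N * b τ T - τ (x : E)‖ < ε) ∧
    ((∃ e : E, ∀ τ, A τ = τ e) ↔ ∃ N : ℕ, 1 ≤ N ∧ ∃ (x : 𝓞 E) (C T₀ : ℝ), ∀ T ≥ T₀,
      ∀ τ, ‖N * b τ T - τ (x : E)‖ ≤ C / T) := by
  have hlim : ∀ τ, Tendsto (b τ) atTop (𝓝 (A τ)) := fun τ => by
    have h1 := (hb τ).trans_tendsto (tendsto_const_nhds.div_atTop tendsto_id)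
    have h2 := h1.add_const (A τ)
    simpa using h2
  have hac : (∃ e : E, ∀ τ, A τ = τ e) → ∃ N : ℕ, 1 ≤ N ∧ ∃ (x : 𝓞 E) (C T₀ : ℝ), ∀ T ≥ T₀,
      ∀ τ, ‖N * b τ T - τ (x : E)‖ ≤ C / T := by
    rintro ⟨e, he⟩
    obtain ⟨x, N, hN, hx⟩ : ∃ (x : 𝓞 E) (N : ℕ), 1 ≤ N ∧ (x : E) = N * e := by
      have halg : IsAlgebraic ℤ e :=
        (IsFractionRing.isAlgebraic_iff ℤ ℚ E).2 (Algebra.IsAlgebraic.isAlgebraic (R := ℚ) e)
      obtain ⟨n, hn0, hint⟩ := halg.exists_integral_multiple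
      rw [zsmul_eq_mul] at hint
      have hN : ((n.natAbs : ℕ) : E) = (n : E) ∨ ((n.natAbs : ℕ) : E) = -(n : E) := by
        rcases Int.natAbs_eq n with h | h
        · left
          have h2 := congrArg (Int.cast : ℤ → E) h
          rw [Int.cast_natCast] at h2
          exact h2.symm
        · right
          have h2 := congrArg (Int.cast : ℤ → E) h
          rw [Int.cast_neg, Int.cast_natCast] at h2
          rw [h2, neg_neg]
      have hint2 : IsIntegral ℤ (((n.natAbs : ℕ) : E) * e) := by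
        rcases hN with h | h
        · rw [h]; exact hint
        · rw [h, neg_mul]; exact hint.neg
      refine ⟨⟨_, hint2⟩, n.natAbs, ?_, rfl⟩
      have := Int.natAbs_pos.2 hn0
      omega
    refine ⟨N, hN, x, ?_⟩
    have h2 : ∀ τ, ∃ C : ℝ, ∀ᶠ T : ℝ in atTop, ‖N * b τ T - τ (x : E)‖ ≤ C / T := by
      intro τ
      obtain ⟨C, hC⟩ := Asymptotics.isBigO_iff.1 (hb τ)
      refine ⟨N * C, ?_⟩
      filter_upwards [hC, eventually_gt_atTop (0 : ℝ)] with T hT hT0
      have e1 : (N : ℂ) * b τ T - τ (x : E) = N * (b τ T - A τ) := by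
        rw [hx, map_mul, map_natCast, he τ]
        ring
      rw [e1, norm_mul, Complex.norm_natCast]
      rw [Real.norm_eq_abs, abs_of_pos (by positivity)] at hT
      calc (N : ℝ) * ‖b τ T - A τ‖ ≤ N * (C * (1 / T)) := by gcongr
        _ = _ := by ring
    choose C hC using h2
    have h3 : ∀ᶠ T : ℝ in atTop, ∀ τ, ‖N * b τ T - τ (x : E)‖ ≤ C τ / T := eventually_all.2 hC
    obtain ⟨T₀, hT₀⟩ := eventually_atTop.1 (h3.and (eventually_gt_atTop (0 : ℝ)))
    refine ⟨∑ τ, |C τ|, T₀, fun T hT τ => ?_⟩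
    obtain ⟨h4, h5⟩ := hT₀ T hT
    refine (h4 τ).trans ?_
    gcongr
    exact (le_abs_self _).trans (Finset.single_le_sum (f := fun τ => |C τ|) (fun _ _ => abs_nonneg _)
      (Finset.mem_univ τ))
  have hcb : (∃ N : ℕ, 1 ≤ N ∧ ∃ (x : 𝓞 E) (C T₀ : ℝ), ∀ T ≥ T₀,
      ∀ τ, ‖N * b τ T - τ (x : E)‖ ≤ C / T) → ∃ N : ℕ, 1 ≤ N ∧ ∀ ε : ℝ, 0 < ε → ∀ T₀ : ℝ, ∃ T ≥ T₀,
      ∃ x : 𝓞 E, ∀ τ, ‖N * b τ T - τ (x : E)‖ < ε := by
    rintro ⟨N, hN, x, C, T₀, h⟩
    refine ⟨N, hN, fun ε hε T₁ => ?_⟩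
    set T : ℝ := max (max T₀ T₁) (|C| / ε + 1) with hT
    have h1 : T₀ ≤ T := (le_max_left _ _).trans (le_max_left _ _)
    have h2 : T₁ ≤ T := (le_max_right _ _).trans (le_max_left _ _)
    have h3 : |C| / ε + 1 ≤ T := le_max_right _ _
    have h4 : 0 ≤ |C| / ε := by positivity
    have h5 : 0 < T := by linarith
    refine ⟨T, h2, x, fun τ => (h T h1 τ).trans_lt ?_⟩
    have h6 : |C| / ε < T := by linarith
    rw [div_lt_iff₀ hε] at h6
    rw [div_lt_iff₀ h5]
    calc C ≤ |C| := le_abs_self _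
      _ < T * ε := h6
      _ = ε * T := mul_comm _ _
  have hba : (∃ N : ℕ, 1 ≤ N ∧ ∀ ε : ℝ, 0 < ε → ∀ T₀ : ℝ, ∃ T ≥ T₀,
      ∃ x : 𝓞 E, ∀ τ, ‖N * b τ T - τ (x : E)‖ < ε) → ∃ e : E, ∀ τ, A τ = τ e := by
    rintro ⟨N, hN, h⟩
    have hN0 : (0 : ℝ) < N := by exact_mod_cast hN
    -- approximations of the limit
    have h1 : ∀ ε : ℝ, 0 < ε → ∃ x : 𝓞 E, ∀ τ, ‖N * A τ - τ (x : E)‖ < ε := by
      intro ε hε
      have h2 : ∀ᶠ T : ℝ in atTop, ∀ τ, ‖N * b τ T - N * A τ‖ < ε / 2 := by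
        refine eventually_all.2 fun τ => ?_
        have h3 : Tendsto (fun T => ‖N * b τ T - N * A τ‖) atTop (𝓝 0) := by
          have h4 := ((hlim τ).const_mul (N : ℂ)).sub_const ((N : ℂ) * A τ)
          rw [sub_self] at h4
          simpa using h4.norm
        exact h3.eventually (gt_mem_nhds (half_pos hε))
      obtain ⟨T₀, hT₀⟩ := eventually_atTop.1 h2
      obtain ⟨T, hT, x, hx⟩ := h (ε / 2) (half_pos hε) T₀
      refine ⟨x, fun τ => ?_⟩
      have e1 : (N : ℂ) * A τ - τ (x : E) = (N * b τ T - τ (x : E)) - (N * b τ T - N * A τ) := by ring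
      rw [e1]
      refine (norm_sub_le _ _).trans_lt ?_
      have := hT₀ T hT τ
      have := hx τ
      linarith
    obtain ⟨x, hx⟩ := h1 (1 / 2) (by norm_num)
    have h3 : ∀ ε : ℝ, 0 < ε → ∀ τ, ‖N * A τ - τ (x : E)‖ < ε := by
      intro ε hε
      obtain ⟨y, hy⟩ := h1 (min ε (1 / 2)) (lt_min hε (by norm_num))
      have hxy : x - y = 0 := int_zero _ fun τ => by
        have e1 : τ ((x - y : 𝓞 E) : E) = (N * A τ - τ (y : E)) - (N * A τ - τ (x : E)) := by
          push_cast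
          rw [map_sub]
          ring
        rw [e1]
        refine (norm_sub_le _ _).trans_lt ?_
        have h4 := hy τ
        have h5 := hx τ
        have h6 := min_le_right ε (1 / 2)
        linarith
      have hxy' : x = y := sub_eq_zero.1 hxy
      intro τ
      rw [hxy']
      exact (hy τ).trans_le (min_le_left _ _)
    refine ⟨(x : E) / N, fun τ => ?_⟩
    have h4 : N * A τ - τ (x : E) = 0 := by
      by_contra h0
      exact lt_irrefl _ (h3 _ (norm_pos_iff.2 h0) τ)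
    rw [map_div₀, map_natCast, ← sub_eq_zero.1 h4]
    have : (N : ℂ) ≠ 0 := by exact_mod_cast hN0.ne'
    field_simp
  exact ⟨⟨fun h => hcb (hac h), hba⟩, ⟨hac, fun h => hba (hcb h)⟩⟩

end Pool.Agent.X298.ST
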