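import Pool.Agent.X298.ST.DMain

/-!
# The rotated law for general Dirichlet series, at any point and with any abscissa of convergence

`D(s) = ∑_i c_i e^{-s λ_i}` converges absolutely for `Re s > σ₁`, `L = exp D` there, and `L` is meromorphic at the points
of the horizontal ray to the right of `s₀`.
-/

set_option autoImplicit false

namespace Pool.Agent.X298.ST

open Complex Filter Topology Set
open Pool.Agent.W189.ML Pool.Agent.W189.LC Pool.Agent.W187.UR Pool.Agent.X287.CR

variable {ι : Type} {lam : ι → ℝ} {c : ι → ℂ}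

/-- the law at `0` for a series which converges for `Re s > 1` -/
theorem law_sd [Countable ι] (D : SD lam c)
    (hs : ∀ w : ℂ, 1 < w.re → AnalyticAt ℂ (sr lam c) w) {L : ℂ → ℂ}
    (hL : ∀ s : ℂ, 1 < s.re → L s = exp (sr lam c s))
    (hmer : ∀ x : ℝ, 0 ≤ x → x ≤ 1 → MeromorphicAt L (x : ℂ)) {γ : ℝ} (hγ : Real.pi / 2 < γ) :
    ∃ (m : ℤ) (r₀ : ℂ), meromorphicOrderAt L 0 = m ∧ meromorphicTrailingCoeffAt L 0 = exp r₀ ∧
      (fun T : ℝ => -cm lam c γ T - (m * (Real.log T - Lam γ) - r₀)) =O[atTop]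
        (fun T : ℝ => 1 / T) := by
  have han : ∀ s : ℂ, 1 < s.re → AnalyticAt ℂ L s ∧ L s ≠ 0 := by
    intro s hs1
    have hopen : IsOpen {z : ℂ | 1 < z.re} := isOpen_lt continuous_const Complex.continuous_re
    constructor
    · have h1 := (hs s hs1).cexp
      refine h1.congr ?_
      filter_upwards [hopen.mem_nhds hs1] with z hz
      exact (hL z hz).symm
    · rw [hL s hs1]
      exact Complex.exp_ne_zero _
  have hmL : ∀ x : ℝ, 0 ≤ x → MeromorphicAt L (x : ℂ) := by
    intro x hx
    by_cases h : x ≤ 1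
    · exact hmer x hx h
    · push Not at h
      exact (han (x : ℂ) (by simpa using h)).1.meromorphicAt
  have hord2 : meromorphicOrderAt L ((2 : ℝ) : ℂ) = 0 := by
    have h1 := han ((2 : ℝ) : ℂ) (by simp)
    rw [h1.1.meromorphicOrderAt_eq, h1.1.analyticOrderAt_eq_zero.2 h1.2]
    rfl
  have hmon : MeromorphicOn L ((fun x : ℝ => (x : ℂ)) '' Icc 0 2) := by
    rintro _ ⟨x, hx, rfl⟩
    exact hmL x hx.1
  have hcon : IsPreconnected ((fun x : ℝ => (x : ℂ)) '' Icc 0 2) :=
    isPreconnected_Icc.image _ (by fun_prop)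
  have htop : ∀ x ∈ Icc (0 : ℝ) 2, meromorphicOrderAt L (x : ℂ) ≠ ⊤ := by
    intro x hx
    refine hmon.meromorphicOrderAt_ne_top_of_isPreconnected (x := ((2 : ℝ) : ℂ)) hcon
      ⟨2, ⟨by norm_num, le_rfl⟩, rfl⟩ ⟨x, hx, rfl⟩ ?_
    rw [hord2]
    simp
  have h0top := htop 0 ⟨le_rfl, by norm_num⟩
  rw [Complex.ofReal_zero] at h0top
  obtain ⟨m, hm⟩ := WithTop.ne_top_iff_exists.1 h0top
  obtain ⟨η, B', L', r₀, hL', hL2, hr0⟩ := bel_c L (sr lam c)
    (fun x hx => hmL x hx.1) htop (fun w hw => hs w hw) (fun w hw => hL w hw) m hm.symm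
  have D' : SD lam (fun x => -c x) := ⟨D.lam_pos, by simpa using D.sum⟩
  have hneg : ∀ w, sr lam (fun x => -c x) w = -sr lam c w := by
    intro w
    unfold sr
    rw [← tsum_neg]
    exact tsum_congr fun i => by ring
  have hcneg : ∀ T, cm lam (fun x => -c x) γ T = -cm lam c γ T := by
    intro T
    unfold cm
    rw [← tsum_neg]
    exact tsum_congr fun i => by ring
  obtain ⟨C, T₀, hC, hT₀, h⟩ := refc D' hγ m r₀ L' η B' hL' (fun w h1 h2 h3 => by
    rw [hneg, neg_neg]
    exact hL2 w h1 h2 h3)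
  refine ⟨m, r₀, hm.symm, hr0.symm, ?_⟩
  rw [Asymptotics.isBigO_iff]
  refine ⟨C, ?_⟩
  filter_upwards [eventually_ge_atTop T₀] with T hT
  have hT1 : 1 ≤ T := hT₀.trans hT
  have h2 := h T hT
  rw [hcneg, Lam_eq] at h2
  have e1 : -cm lam c γ T - (m * (Real.log T - Lam γ) - r₀) =
      -cm lam c γ T - (m * Real.log T - m * Lam γ - r₀) := by ring
  rw [e1]
  refine h2.trans (le_of_eq ?_)
  rw [Real.norm_eq_abs, abs_of_pos (by positivity)]
  ring

/-- a general Dirichlet series with absolute convergence for `Re s > σ₁` -/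
structure GSys (lam : ι → ℝ) (c : ι → ℂ) (σ₁ : ℝ) : Prop where
  cnt : Countable ι
  nonneg : ∀ i, 0 ≤ lam i
  sum : ∀ σ : ℝ, σ₁ < σ → Summable fun i => ‖c i‖ * Real.exp (-(σ * lam i))

/-- the rotated sum at `s₀`: `- ∑ c_i e^{-s₀ λ_i} e^{iγλ_i/T} / Γ(1 + λ_i/T)` -/
noncomputable def GS (lam : ι → ℝ) (c : ι → ℂ) (s₀ : ℂ) (γ T : ℝ) : ℂ :=
  -∑' i, c i * exp (-(s₀ * lam i)) * exp ((γ * (lam i / T) : ℝ) * I) * (om (lam i / T) : ℂ)

variable {σ₁ : ℝ}

namespace GSys

variable (G : GSys lam c σ₁)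
include G

theorem norm_shift (s₀ : ℂ) (i : ι) :
    ‖c i * exp (-(s₀ * lam i))‖ = ‖c i‖ * Real.exp (-(s₀.re * lam i)) := by
  rw [norm_mul, Complex.norm_exp]
  congr 2
  rw [Complex.neg_re, Complex.re_mul_ofReal]

/-- absolute convergence of the rotated sum -/
theorem summable (s₀ : ℂ) (γ : ℝ) {T : ℝ} (hT : 0 < T) :
    Summable fun i => ‖c i * exp (-(s₀ * lam i)) * exp ((γ * (lam i / T) : ℝ) * I) *
      (om (lam i / T) : ℂ)‖ := by
  set a : ℝ := |σ₁ - s₀.re| + 1 with ha
  have ha0 : 0 < a := by positivity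
  have haT : 0 ≤ a * T := by positivity
  have hσ : σ₁ < s₀.re + a := by
    have := le_abs_self (σ₁ - s₀.re)
    linarith
  have h1 := (G.sum _ hσ).mul_left (Real.exp (Real.exp (a * T)) + 1)
  refine Summable.of_nonneg_of_le (fun i => norm_nonneg _) (fun i => ?_) h1
  have h0 : 0 ≤ lam i / T := div_nonneg (G.nonneg i) hT.le
  rw [norm_mul, norm_mul, G.norm_shift, Complex.norm_exp_ofReal_mul_I, mul_one, Complex.norm_real,
    Real.norm_eq_abs, abs_of_nonneg (om_nonneg h0)]
  have h2 := om_le (a := a * T) (v := lam i / T) haT h0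
  have h3 : a * T * (lam i / T) = a * lam i := by field_simp
  rw [h3] at h2
  calc ‖c i‖ * Real.exp (-(s₀.re * lam i)) * om (lam i / T) ≤
      ‖c i‖ * Real.exp (-(s₀.re * lam i)) * ((Real.exp (Real.exp (a * T)) + 1) * Real.exp (-(a * lam i))) := by
        gcongr
    _ = (Real.exp (Real.exp (a * T)) + 1) * (‖c i‖ * Real.exp (-((s₀.re + a) * lam i))) := by
        have : Real.exp (-((s₀.re + a) * lam i)) =
            Real.exp (-(s₀.re * lam i)) * Real.exp (-(a * lam i)) := by
          rw [← Real.exp_add]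
          congr 1
          ring
        rw [this]
        ring

theorem analytic {w : ℂ} (hw : σ₁ < w.re) : AnalyticAt ℂ (sr lam c) w := by
  set σ : ℝ := (σ₁ + w.re) / 2 with hσ
  have hσ1 : σ₁ < σ := by rw [hσ]; linarith
  have hσw : σ < w.re := by rw [hσ]; linarith
  have hopen : IsOpen {z : ℂ | σ < z.re} := isOpen_lt continuous_const Complex.continuous_re
  have h1 : DifferentiableOn ℂ (sr lam c) {z : ℂ | σ < z.re} := by
    unfold sr
    refine Complex.differentiableOn_tsum_of_summable_norm (G.sum σ hσ1) (fun i => ?_) hopen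
      (fun i z hz => ?_)
    · exact Differentiable.differentiableOn (by fun_prop)
    · rw [norm_mul, Complex.norm_exp]
      refine mul_le_mul_of_nonneg_left ?_ (norm_nonneg _)
      apply Real.exp_le_exp.2
      have h2 : (-(z * lam i)).re = -(z.re * lam i) := by
        rw [Complex.neg_re, Complex.re_mul_ofReal]
      rw [h2]
      have hz' : σ < z.re := hz
      have := G.nonneg i
      nlinarith
  exact h1.analyticAt (hopen.mem_nhds hσw)

/-- **the rotated law, general form** -/
theorem law {L : ℂ → ℂ} (hL : ∀ s : ℂ, σ₁ < s.re → L s = exp (sr lam c s)) {s₀ : ℂ}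
    (hmer : ∀ x : ℝ, 0 ≤ x → s₀.re + x ≤ σ₁ → MeromorphicAt L (s₀ + x)) {γ : ℝ}
    (hγ : Real.pi / 2 < γ) :
    ∃ (m : ℤ) (r₀ : ℂ), meromorphicOrderAt L s₀ = m ∧ meromorphicTrailingCoeffAt L s₀ = exp r₀ ∧
      (fun T : ℝ => GS lam c s₀ γ T - (m * (Real.log T - Lam γ) - r₀)) =O[atTop]
        (fun T : ℝ => 1 / T) := by
  have := G.cnt
  set R : ℝ := |σ₁ - s₀.re| + 1 with hR
  have hR0 : 0 < R := by positivity
  have hRσ : σ₁ < s₀.re + R := by
    have := le_abs_self (σ₁ - s₀.re)
    linarith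
  -- the rescaled system
  set lam' : ι → ℝ := fun i => R * lam i with hlam'
  set c' : ι → ℂ := fun i => c i * exp (-(s₀ * lam i)) with hc'
  have hsum' : ∀ σ : ℝ, 1 < σ → Summable fun i => ‖c' i‖ * Real.exp (-(σ * lam' i)) := by
    intro σ hσ
    have h1 : σ₁ < s₀.re + σ * R := by nlinarith
    refine (G.sum _ h1).congr fun i => ?_
    rw [hc']
    simp only
    rw [G.norm_shift, mul_assoc, ← Real.exp_add]
    congr 2
    rw [hlam']
    simp only
    ring
  have D : SD lam' c' := ⟨fun i => mul_nonneg hR0.le (G.nonneg i), hsum' 2 (by norm_num)⟩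
  have hsr : ∀ w : ℂ, sr lam' c' w = sr lam c (s₀ + R * w) := by
    intro w
    unfold sr
    refine tsum_congr fun i => ?_
    rw [hc', hlam']
    simp only
    rw [mul_assoc, ← Complex.exp_add]
    congr 2
    push_cast
    ring
  have hre : ∀ w : ℂ, 1 < w.re → σ₁ < (s₀ + R * w).re := by
    intro w hw
    rw [Complex.add_re, Complex.re_ofReal_mul]
    nlinarith
  have han' : ∀ w : ℂ, 1 < w.re → AnalyticAt ℂ (sr lam' c') w := by
    intro w hw
    have h1 := G.analytic (hre w hw)
    have h2 : AnalyticAt ℂ (fun z => sr lam c (s₀ + R * z)) w :=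
      AnalyticAt.fun_comp (g := sr lam c) (f := fun z => s₀ + R * z) h1 (by fun_prop)
    refine h2.congr ?_
    filter_upwards with z
    exact (hsr z).symm
  have hmL : ∀ x : ℝ, 0 ≤ x → MeromorphicAt L (s₀ + x) := by
    intro x hx
    by_cases h : s₀.re + x ≤ σ₁
    · exact hmer x hx h
    · push Not at h
      have h2 : σ₁ < (s₀ + x : ℂ).re := by
        rw [Complex.add_re, Complex.ofReal_re]
        exact h
      have h3 := (G.analytic h2).cexp
      refine (h3.congr ?_).meromorphicAt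
      have hopen : IsOpen {z : ℂ | σ₁ < z.re} := isOpen_lt continuous_const Complex.continuous_re
      filter_upwards [hopen.mem_nhds h2] with z hz
      exact (hL z hz).symm
  obtain ⟨m, r₁, h1, h2, h3⟩ := law_sd D han' (L := fun w => L (s₀ + R * w))
    (fun s hs => by rw [hsr, hL _ (hre s hs)])
    (fun x hx0 _ => by
      have h4 := hmL (R * x) (mul_nonneg hR0.le hx0)
      push_cast at h4
      exact h4.comp_analyticAt (f := L) (g := fun w => s₀ + R * w) (by fun_prop)) hγ
  -- back to `L`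
  have hL0 : MeromorphicAt L s₀ := by
    have := hmL 0 le_rfl
    rwa [Complex.ofReal_zero, add_zero] at this
  have hRc : (R : ℂ) ≠ 0 := by exact_mod_cast hR0.ne'
  have hord : meromorphicOrderAt (fun w => L (s₀ + R * w)) 0 = meromorphicOrderAt L s₀ := by
    have h5 : meromorphicOrderAt (L ∘ fun w => s₀ + R * w) 0 = meromorphicOrderAt L (s₀ + R * 0) := by
      refine meromorphicOrderAt_comp_of_deriv_ne_zero (f := L) (g := fun w => s₀ + R * w)
        (by fun_prop) ?_
      have h6 : HasDerivAt (fun w : ℂ => s₀ + R * w) (R * 1) 0 :=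
        ((hasDerivAt_id (0 : ℂ)).const_mul (R : ℂ)).const_add s₀
      rw [h6.deriv, mul_one]
      exact hRc
    rw [mul_zero, add_zero] at h5
    exact h5
  have hm : meromorphicOrderAt L s₀ = m := by rw [← hord]; exact h1
  obtain ⟨g, hg1, hg2, hg3⟩ := (meromorphicOrderAt_eq_int_iff hL0).1 hm
  have htr : meromorphicTrailingCoeffAt L s₀ = g s₀ :=
    hg1.meromorphicTrailingCoeffAt_of_ne_zero_of_eq_nhdsNE (n := m) hg2 hg3
  have htr' : meromorphicTrailingCoeffAt (fun w => L (s₀ + R * w)) 0 = (R : ℂ) ^ m * g s₀ := by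
    have hga : AnalyticAt ℂ (fun w => (R : ℂ) ^ m * g (s₀ + R * w)) 0 := by
      have h5 : AnalyticAt ℂ (fun w => g (s₀ + R * w)) 0 :=
        AnalyticAt.fun_comp (g := g) (f := fun w => s₀ + R * w) (by simpa using hg1) (by fun_prop)
      exact analyticAt_const.mul h5
    have h6 := hga.meromorphicTrailingCoeffAt_of_ne_zero_of_eq_nhdsNE (n := m)
      (f := fun w => L (s₀ + R * w)) ?_ ?_
    · rw [h6]
      simp
    · simp only [mul_zero, add_zero]
      exact mul_ne_zero (zpow_ne_zero _ hRc) hg2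
    · have ht : Tendsto (fun w : ℂ => s₀ + R * w) (𝓝[≠] 0) (𝓝[≠] s₀) := by
        refine tendsto_nhdsWithin_of_tendsto_nhds_of_eventually_within _ ?_ ?_
        · have : ContinuousAt (fun w : ℂ => s₀ + R * w) 0 := by fun_prop
          have h6 := this.tendsto
          rw [mul_zero, add_zero] at h6
          exact h6.mono_left nhdsWithin_le_nhds
        · filter_upwards [self_mem_nhdsWithin] with w hw
          have hw' : w ≠ 0 := hw
          simp [hRc, hw']
      have h7 := ht.eventually hg3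
      filter_upwards [h7] with w hw
      rw [hw]
      simp only [smul_eq_mul, add_sub_cancel_left, sub_zero]
      rw [mul_zpow]
      ring
  -- the logarithm of the leading coefficient
  set r₀ : ℂ := r₁ - m * Real.log R with hr₀
  have hRm : exp (m * Real.log R) = (R : ℂ) ^ m := by
    rw [Complex.exp_int_mul, ← Complex.ofReal_exp, Real.exp_log hR0]
  refine ⟨m, r₀, hm, ?_, ?_⟩
  · rw [htr, hr₀, Complex.exp_sub, hRm]
    rw [htr'] at h2
    rw [← h2]
    field_simp
  · have hcomp : Tendsto (fun T : ℝ => R * T) atTop atTop := tendsto_id.const_mul_atTop hR0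
    have h4 := h3.comp_tendsto hcomp
    have h5 : ((fun T : ℝ => -cm lam' c' γ T - (m * (Real.log T - Lam γ) - r₁)) ∘ fun T : ℝ => R * T)
        =ᶠ[atTop] fun T : ℝ => GS lam c s₀ γ T - (m * (Real.log T - Lam γ) - r₀) := by
      filter_upwards [eventually_gt_atTop (0 : ℝ)] with T hT
      simp only [Function.comp_apply]
      have e1 : cm lam' c' γ (R * T) = -GS lam c s₀ γ T := by
        unfold cm GS
        rw [neg_neg]
        refine tsum_congr fun i => ?_
        have e2 : lam' i / (R * T) = lam i / T := by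
          rw [hlam']
          simp only
          rw [mul_div_mul_left _ _ hR0.ne']
        rw [e2]
      rw [e1, Real.log_mul hR0.ne' hT.ne', hr₀]
      push_cast
      ring
    have h6 : ((fun T : ℝ => 1 / T) ∘ fun T : ℝ => R * T) =O[atTop] fun T : ℝ => 1 / T := by
      refine Asymptotics.IsBigO.of_bound (1 / R) ?_
      filter_upwards [eventually_gt_atTop (0 : ℝ)] with T hT
      simp only [Function.comp_apply]
      rw [Real.norm_eq_abs, Real.norm_eq_abs, abs_of_pos (by positivity), abs_of_pos (by positivity)]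
      rw [← one_div_mul_one_div]
    exact (h4.congr' h5 EventuallyEq.rfl).trans h6

end GSys

end Pool.Agent.X298.ST
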