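import Pool.Agent.X298.ST.DDefs
import Pool.Agent.X298.ST.Main

/-!
# Artin twists of a motive and rotated sums over Frobenius cosets
-/

set_option autoImplicit false

open Filter Topology Asymptotics
open IsDedekindDomain NumberField

namespace Pool.Agent.X298.ST

open Pool.Agent.X287.CR Pool.Agent.W187.UR

variable {K F : Type} [Field K] [NumberField K] [Field F] [NumberField F] [Algebra K F]
variable {S : Set (HeightOneSpectrum (𝓞 K))} {P : Places S → Ideal (𝓞 F)}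
variable {c : Places S → ℕ → ℂ} {w n : ℤ}

lemma nrm_two (v : Places S) : (2 : ℝ) ≤ nrm v := by exact_mod_cast (qsys S).two_le v

lemma nrm_pos (v : Places S) : (0 : ℝ) < nrm v := by linarith [nrm_two v]

lemma nrm_ne (v : Places S) : (nrm v : ℂ) ≠ 0 := by
  have := nrm_pos v
  exact_mod_cast this.ne'

/-- the coefficients at the point `σ ≥ w/2` are bounded -/
theorem coef_le (hc : IsPure c w) (f : (F ≃ₐ[K] F) → ℂ) {σ : ℝ} (hσ : (w : ℝ) / 2 ≤ σ) :
    ∃ B : ℝ, ∀ x : Places S × ℕ, ‖c x.1 (x.2 + 1) * value P f x.1 (x.2 + 1) *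
      ((nrm x.1 : ℂ) ^ (-(σ : ℂ))) ^ (x.2 + 1)‖ ≤ B := by
  obtain ⟨d, hd⟩ := hc
  obtain ⟨B, hB⟩ := value_le P f
  have hB0 : 0 ≤ |B| := abs_nonneg _
  refine ⟨|d| * |B|, fun x => ?_⟩
  have hq := nrm_two x.1
  have hq0 := nrm_pos x.1
  have h1 : ‖(nrm x.1 : ℂ) ^ (-(σ : ℂ))‖ = (nrm x.1 : ℝ) ^ (-σ) := by
    have h2 : ((nrm x.1 : ℕ) : ℂ) = ((nrm x.1 : ℝ) : ℂ) := by push_cast; rfl
    rw [h2, ← Complex.ofReal_neg, Complex.norm_cpow_eq_rpow_re_of_pos hq0, Complex.ofReal_re]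
  rw [norm_mul, norm_mul, norm_pow, h1]
  have h3 : 0 ≤ (nrm x.1 : ℝ) ^ (-σ) := (Real.rpow_pos_of_pos hq0 _).le
  have h4 : 0 ≤ (nrm x.1 : ℝ) ^ ((w : ℝ) / 2) := (Real.rpow_pos_of_pos hq0 _).le
  have h5 : (nrm x.1 : ℝ) ^ ((w : ℝ) / 2) * (nrm x.1 : ℝ) ^ (-σ) ≤ 1 := by
    rw [← Real.rpow_add hq0]
    exact Real.rpow_le_one_of_one_le_of_nonpos (by linarith) (by linarith)
  have h6 : ‖c x.1 (x.2 + 1)‖ ≤ |d| * ((nrm x.1 : ℝ) ^ ((w : ℝ) / 2)) ^ (x.2 + 1) := by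
    refine (hd _ _).trans ?_
    gcongr
    exact le_abs_self d
  calc ‖c x.1 (x.2 + 1)‖ * ‖value P f x.1 (x.2 + 1)‖ * ((nrm x.1 : ℝ) ^ (-σ)) ^ (x.2 + 1)
      ≤ (|d| * ((nrm x.1 : ℝ) ^ ((w : ℝ) / 2)) ^ (x.2 + 1)) * |B| *
        ((nrm x.1 : ℝ) ^ (-σ)) ^ (x.2 + 1) := by
        gcongr
        exact (hB _ _).trans (le_abs_self B)
    _ = |d| * |B| * ((nrm x.1 : ℝ) ^ ((w : ℝ) / 2) * (nrm x.1 : ℝ) ^ (-σ)) ^ (x.2 + 1) := by
        rw [mul_pow]
        ring
    _ ≤ |d| * |B| * 1 := by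
        gcongr
        exact pow_le_one₀ (mul_nonneg h4 h3) h5
    _ = _ := mul_one _

/-- the series as a generalised Dirichlet series at `σ` -/
theorem logTwist_eq (P : Places S → Ideal (𝓞 F)) (c : Places S → ℕ → ℂ) (f : (F ≃ₐ[K] F) → ℂ)
    (σ : ℂ) (s : ℂ) : logTwist P c f (σ + s) = sr (lam nrm) (co fun x : Places S × ℕ =>
      c x.1 (x.2 + 1) * value P f x.1 (x.2 + 1) * ((nrm x.1 : ℂ) ^ (-σ)) ^ (x.2 + 1)) s := by
  unfold logTwist sr
  refine tsum_congr fun x => ?_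
  unfold co lam
  have h1 : (nrm x.1 : ℂ) ^ (-(σ + s)) = (nrm x.1 : ℂ) ^ (-σ) * (nrm x.1 : ℂ) ^ (-s) := by
    rw [← Complex.cpow_add _ _ (nrm_ne x.1)]
    congr 1
    ring
  have h2 : ((nrm x.1 : ℂ) ^ (-s)) ^ (x.2 + 1) =
      Complex.exp (-(s * (((x.2 + 1) * Real.log (nrm x.1) : ℝ) : ℂ))) := by
    rw [(qsys S).csys.cpow_eq, ← Complex.exp_nat_mul]
    congr 1
    push_cast
    ring
  rw [h1, mul_pow, h2]
  ring

/-- analyticity on the half plane of convergence -/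
theorem twist_analytic (hc : IsPure c w) {f : (F ≃ₐ[K] F) → ℂ} {Λ : ℂ → ℂ}
    (h : IsTwistL P c w n f Λ) {s : ℂ} (hs : (w : ℝ) / 2 + 1 < s.re) : AnalyticAt ℂ Λ s := by
  obtain ⟨B, hB⟩ := coef_le (P := P) hc f (σ := (w : ℝ) / 2) le_rfl
  set b : Places S × ℕ → ℂ := fun x => c x.1 (x.2 + 1) * value P f x.1 (x.2 + 1) *
      ((nrm x.1 : ℂ) ^ (-(((w : ℝ) / 2 : ℝ) : ℂ))) ^ (x.2 + 1) with hb
  have h1 : AnalyticAt ℂ (sr (lam nrm) (co b)) (s - (((w : ℝ) / 2 : ℝ) : ℂ)) := by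
    refine sr_analytic (qsys S) hB ?_
    rw [Complex.sub_re, Complex.ofReal_re]
    linarith
  have h2 : AnalyticAt ℂ (fun z => sr (lam nrm) (co b) (z - (((w : ℝ) / 2 : ℝ) : ℂ))) s :=
    AnalyticAt.fun_comp (g := sr (lam nrm) (co b)) (f := fun z => z - (((w : ℝ) / 2 : ℝ) : ℂ)) h1
      (by fun_prop)
  have h3 := h2.cexp
  have hopen : IsOpen {z : ℂ | (w : ℝ) / 2 + 1 < z.re} :=
    isOpen_lt continuous_const Complex.continuous_re
  refine h3.congr ?_
  filter_upwards [hopen.mem_nhds hs] with z hz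
  rw [h.eq z hz]
  have e1 : z = (((w : ℝ) / 2 : ℝ) : ℂ) + (z - (((w : ℝ) / 2 : ℝ) : ℂ)) := by ring
  conv_rhs => rw [e1]
  rw [logTwist_eq]
  rfl

/-- shifting the argument -/
theorem shift {L : ℂ → ℂ} {s₀ : ℂ} (hL : MeromorphicAt L s₀) {m : ℤ}
    (hm : meromorphicOrderAt (fun s => L (s₀ + s)) 0 = m) :
    meromorphicOrderAt L s₀ = m ∧
      meromorphicTrailingCoeffAt L s₀ = meromorphicTrailingCoeffAt (fun s => L (s₀ + s)) 0 := by
  set Φ : ℂ → ℂ := fun s => L (s₀ + s) with hΦ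
  have hmo : meromorphicOrderAt Φ 0 = meromorphicOrderAt L s₀ := by
    have h5 : meromorphicOrderAt (L ∘ fun w => s₀ + w) 0 = meromorphicOrderAt L (s₀ + 0) := by
      refine meromorphicOrderAt_comp_of_deriv_ne_zero (f := L) (g := fun w => s₀ + w) (by fun_prop) ?_
      simp
    rw [add_zero] at h5
    exact h5
  refine ⟨by rw [← hmo]; exact hm, ?_⟩
  obtain ⟨g, hg1, hg2, hg3⟩ := (meromorphicOrderAt_eq_int_iff hL).1
    (show meromorphicOrderAt L s₀ = m by rw [← hmo]; exact hm)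
  rw [hg1.meromorphicTrailingCoeffAt_of_ne_zero_of_eq_nhdsNE (n := m) hg2 hg3]
  symm
  have hg1' : AnalyticAt ℂ (fun w => g (s₀ + w)) 0 :=
    AnalyticAt.fun_comp (g := g) (f := fun w => s₀ + w) (by simpa using hg1) (by fun_prop)
  have := hg1'.meromorphicTrailingCoeffAt_of_ne_zero_of_eq_nhdsNE (n := m) (f := Φ)
    (by simpa using hg2) ?_
  · rw [this]; simp
  · have ht : Tendsto (fun w : ℂ => s₀ + w) (𝓝[≠] 0) (𝓝[≠] s₀) := by
      refine tendsto_nhdsWithin_of_tendsto_nhds_of_eventually_within _ ?_ ?_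
      · have : ContinuousAt (fun w : ℂ => s₀ + w) 0 := by fun_prop
        have h6 := this.tendsto
        rw [add_zero] at h6
        exact h6.mono_left nhdsWithin_le_nhds
      · filter_upwards [self_mem_nhdsWithin] with w hw
        simpa using hw
    have h7 := ht.eventually hg3
    filter_upwards [h7] with w hw
    rw [hΦ]
    simp only
    rw [hw]
    simp

/-- the coefficients at `n` -/
noncomputable def cf (P : Places S → Ideal (𝓞 F)) (c : Places S → ℕ → ℂ) (n : ℤ)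
    (f : (F ≃ₐ[K] F) → ℂ) (x : Places S × ℕ) : ℂ :=
  c x.1 (x.2 + 1) * value P f x.1 (x.2 + 1) * (((nrm x.1 : ℂ) ^ n)⁻¹) ^ (x.2 + 1)

theorem cf_eq (P : Places S → Ideal (𝓞 F)) (c : Places S → ℕ → ℂ) (n : ℤ)
    (f : (F ≃ₐ[K] F) → ℂ) (x : Places S × ℕ) : cf P c n f x =
      c x.1 (x.2 + 1) * value P f x.1 (x.2 + 1) * ((nrm x.1 : ℂ) ^ (-((n : ℝ) : ℂ))) ^ (x.2 + 1) := by
  unfold cf
  congr 2
  rw [Complex.cpow_neg]
  congr 1
  rw [show (((n : ℝ)) : ℂ) = (n : ℂ) by push_cast; rfl, Complex.cpow_intCast]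

theorem cf_le (hc : IsPure c w) (hn : (w : ℝ) / 2 ≤ n) (f : (F ≃ₐ[K] F) → ℂ) :
    ∃ B : ℝ, ∀ x, ‖cf P c n f x‖ ≤ B := by
  obtain ⟨B, hB⟩ := coef_le (P := P) hc f hn
  exact ⟨B, fun x => by rw [cf_eq]; exact hB x⟩

theorem twistTerm_eq (P : Places S → Ideal (𝓞 F)) (c : Places S → ℕ → ℂ) (n : ℤ)
    (f : (F ≃ₐ[K] F) → ℂ) (γ T : ℝ) (x : Places S × ℕ) :
    twistTerm P c n f γ T x = -rt nrm (cf P c n f) γ T x := by
  unfold twistTerm rt cf
  ring

theorem twist_summable (hc : IsPure c w) (hn : (w : ℝ) / 2 ≤ n) (f : (F ≃ₐ[K] F) → ℂ) (γ : ℝ)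
    {T : ℝ} (hT : 0 < T) : Summable fun x => ‖twistTerm P c n f γ T x‖ := by
  obtain ⟨B, hB⟩ := cf_le (P := P) hc hn f
  have h1 := rt_summable (qsys S) hB γ hT
  refine h1.congr fun x => ?_
  rw [twistTerm_eq, norm_neg]

theorem twistSum_eq (P : Places S → Ideal (𝓞 F)) (c : Places S → ℕ → ℂ) (n : ℤ)
    (f : (F ≃ₐ[K] F) → ℂ) (γ T : ℝ) : twistSum P c n f γ T = -RS nrm (cf P c n f) γ T := by
  unfold twistSum RS
  rw [← tsum_neg]
  exact tsum_congr fun x => twistTerm_eq P c n f γ T x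

/-- **the asymptotic formula for a twist** -/
theorem twist_asy (hc : IsPure c w) (hn : (w : ℝ) / 2 ≤ n) {f : (F ≃ₐ[K] F) → ℂ} {Λ : ℂ → ℂ}
    (h : IsTwistL P c w n f Λ) {γ : ℝ} (hγ : Real.pi / 2 < γ) :
    ∃ (m : ℤ) (r₀ : ℂ), meromorphicOrderAt Λ (n : ℂ) = m ∧
      meromorphicTrailingCoeffAt Λ (n : ℂ) = Complex.exp r₀ ∧
      Asy (Lambda γ) (twistSum P c n f γ) m r₀ := by
  obtain ⟨B, hB⟩ := cf_le (P := P) hc hn f
  have hmer : ∀ x : ℝ, 0 ≤ x → MeromorphicAt Λ ((n : ℂ) + x) := by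
    intro x hx
    by_cases h1 : (n : ℝ) + x ≤ (w : ℝ) / 2 + 1
    · have h2 := h.mero ((n : ℝ) + x) (by linarith) h1
      push_cast at h2
      exact h2
    · push Not at h1
      exact (twist_analytic hc h (s := (n : ℂ) + x) (by simpa using h1)).meromorphicAt
  obtain ⟨m, r₀, h1, h2, h3⟩ := law (qsys S) hB (L := fun s => Λ ((n : ℂ) + s)) (fun s hs => by
    rw [h.eq _ (by
      rw [Complex.add_re, Complex.intCast_re]
      linarith), logTwist_eq]
    congr 2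
    funext x
    unfold co
    rw [cf_eq]
    push_cast
    rfl) (fun x hx0 hx1 => (hmer x hx0).comp_analyticAt (f := Λ) (g := fun s => (n : ℂ) + s)
      (by fun_prop)) hγ
  have hL0 : MeromorphicAt Λ (n : ℂ) := by
    have := hmer 0 le_rfl
    rwa [Complex.ofReal_zero, add_zero] at this
  obtain ⟨h4, h5⟩ := shift hL0 h1
  refine ⟨m, r₀, h4, by rw [h5, h2], ?_⟩
  have h6 : twistSum P c n f γ = fun T => -RS nrm (cf P c n f) γ T := by
    funext T
    exact twistSum_eq P c n f γ T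
  rw [h6]
  exact h3

theorem twistSum_add (hc : IsPure c w) (hn : (w : ℝ) / 2 ≤ n) (f g : (F ≃ₐ[K] F) → ℂ) (γ : ℝ) {T : ℝ}
    (hT : 0 < T) : twistSum P c n (f + g) γ T = twistSum P c n f γ T + twistSum P c n g γ T := by
  unfold twistSum
  rw [← (twist_summable (P := P) hc hn f γ hT).of_norm.tsum_add (twist_summable hc hn g γ hT).of_norm]
  refine tsum_congr fun x => ?_
  unfold twistTerm
  rw [value_add]
  ring

theorem twistSum_smul (P : Places S → Ideal (𝓞 F)) (c : Places S → ℕ → ℂ) (n : ℤ) (a : ℂ)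
    (f : (F ≃ₐ[K] F) → ℂ) (γ T : ℝ) :
    twistSum P c n (a • f) γ T = a * twistSum P c n f γ T := by
  unfold twistSum
  rw [← tsum_mul_left]
  refine tsum_congr fun x => ?_
  unfold twistTerm
  rw [value_smul]
  ring

theorem twistSum_sum {ι : Type} (hc : IsPure c w) (hn : (w : ℝ) / 2 ≤ n) (s : Finset ι) (a : ι → ℂ)
    (f : ι → (F ≃ₐ[K] F) → ℂ) (γ : ℝ) {T : ℝ} (hT : 0 < T) :
    twistSum P c n (∑ i ∈ s, a i • f i) γ T = ∑ i ∈ s, a i * twistSum P c n (f i) γ T := by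
  classical
  induction s using Finset.induction_on with
  | empty =>
    simp only [Finset.sum_empty]
    have := twistSum_smul P c n 0 (0 : (F ≃ₐ[K] F) → ℂ) γ T
    simpa using this
  | insert a s ha ih =>
    rw [Finset.sum_insert ha, Finset.sum_insert ha, twistSum_add hc hn _ _ γ hT, ih, twistSum_smul]

theorem twistSum_class (hc : IsPure c w) (hn : (w : ℝ) / 2 ≤ n) (φ : ConjClasses (F ≃ₐ[K] F) → ℂ)
    (γ : ℝ) {T : ℝ} (hT : 0 < T) :
    twistSum P c n (fun g => φ (ConjClasses.mk g)) γ T = ∑ᶠ C, φ C * twistClass P c n γ T C := by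
  classical
  have := fin_gal (K := K) (L := F)
  have : Finite (ConjClasses (F ≃ₐ[K] F)) := Quotient.finite _
  have := Fintype.ofFinite (ConjClasses (F ≃ₐ[K] F))
  have h1 : (fun g : F ≃ₐ[K] F => φ (ConjClasses.mk g)) =
      ∑ C, φ C • fun g : F ≃ₐ[K] F => if ConjClasses.mk g = C then (1 : ℂ) else 0 := by
    funext g
    rw [Finset.sum_apply]
    simp
  rw [h1, twistSum_sum hc hn _ _ _ γ hT, finsum_eq_sum_of_fintype]
  refine Finset.sum_congr rfl fun C _ => ?_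
  unfold twistClass
  congr!

/-- the value at a point of holomorphy -/
theorem exp_value {L : ℂ → ℂ} {s₀ : ℂ} {m : ℤ} {r₀ Λ : ℂ} {S : ℝ → ℂ} (hL : AnalyticAt ℂ L s₀)
    (hm : meromorphicOrderAt L s₀ = m) (hl : meromorphicTrailingCoeffAt L s₀ = Complex.exp r₀)
    (h : Asy Λ S m r₀) :
    (fun T : ℝ => Complex.exp (-S T) - L s₀) =O[atTop] (fun T : ℝ => 1 / T) := by
  obtain ⟨hm0, h1, h2⟩ := Pool.Agent.X287.CR.value hL hm hl
  set Er : ℝ → ℂ := fun T => S T - (m * (Real.log T - Λ) - r₀) with hEr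
  have hE0 : Tendsto Er atTop (𝓝 0) := h.tend
  have hEO : Er =O[atTop] (fun T : ℝ => 1 / T) := h
  have hneg : Tendsto (fun T => -Er T) atTop (𝓝 0) := by simpa using hE0.neg
  have hexp : (fun T : ℝ => Complex.exp (-Er T) - 1) =O[atTop] (fun T : ℝ => 1 / T) := by
    have h5 : (fun z : ℂ => Complex.exp z - 1) =O[𝓝 0] (fun z : ℂ => z) := by
      have h6 := (Complex.hasDerivAt_exp 0).isBigO_sub
      simpa using h6
    exact (h5.comp_tendsto hneg).trans hEO.neg_left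
  rcases eq_or_ne m 0 with h0 | h0
  · have e1 : (fun T : ℝ => Complex.exp (-S T) - L s₀) =
        fun T : ℝ => Complex.exp r₀ * (Complex.exp (-Er T) - 1) := by
      funext T
      rw [h1 h0]
      have e2 : -S T = r₀ + -Er T := by
        rw [hEr, h0]
        push_cast
        ring
      rw [e2, Complex.exp_add]
      ring
    rw [e1]
    exact hexp.const_mul_left _
  · rw [h2 h0]
    have hm1 : 1 ≤ m := by omega
    have e1 : (fun T : ℝ => Complex.exp (-S T) - 0) =ᶠ[atTop]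
        fun T : ℝ => (Complex.exp (r₀ + m * Λ) * Complex.exp (-Er T)) * (((T : ℂ) ^ m)⁻¹) := by
      filter_upwards [eventually_gt_atTop (0 : ℝ)] with T hT
      have hTm : (T : ℂ) ^ m = Complex.exp (m * Real.log T) := by
        rw [Complex.exp_int_mul, ← Complex.ofReal_exp, Real.exp_log hT]
      rw [sub_zero, hTm, ← Complex.exp_add, ← Complex.exp_neg, ← Complex.exp_add]
      congr 1
      rw [hEr]
      ring
    have hb : (fun T : ℝ => Complex.exp (r₀ + m * Λ) * Complex.exp (-Er T)) =O[atTop]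
        (fun _ : ℝ => (1 : ℝ)) := by
      refine Tendsto.isBigO_one ℝ (c := Complex.exp (r₀ + m * Λ) * Complex.exp 0) ?_
      exact ((Complex.continuous_exp.tendsto 0).comp hneg).const_mul _
    have hp : (fun T : ℝ => ((T : ℂ) ^ m)⁻¹) =O[atTop] (fun T : ℝ => 1 / T) := by
      refine IsBigO.of_bound 1 ?_
      filter_upwards [eventually_ge_atTop (1 : ℝ)] with T hT
      have hT0 : 0 < T := by linarith
      rw [norm_inv, norm_zpow, Complex.norm_real, Real.norm_eq_abs, Real.norm_eq_abs,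
        abs_of_pos hT0, abs_of_pos (by positivity), one_mul, one_div]
      refine inv_anti₀ hT0 ?_
      calc T = T ^ (1 : ℤ) := (zpow_one T).symm
        _ ≤ T ^ m := zpow_le_zpow_right₀ hT hm1
    have h7 := hb.mul hp
    simp only [one_mul] at h7
    exact h7.congr' e1.symm EventuallyEq.rfl

end Pool.Agent.X298.ST
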