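import Pool.Agent.X298.ST.Four
import Pool.Agent.X298.ST.DMain

/-!
# Rotated sums over the elements of a finite abelian group
-/

set_option autoImplicit false

open Filter Topology Asymptotics

namespace Pool.Agent.X298.ST

open Pool.Agent.X287.CR Pool.Agent.W187.UR

variable {G : Type} [CommGroup G] [Finite G]
variable {X : Type} {q : X → ℕ} {d : ℕ} {θ : ℝ} {α : X → Fin d → ℂ}

theorem norm_ch (ψ : G →* ℂ) (g : G) : ‖ψ g‖ = 1 := by
  refine Complex.norm_eq_one_of_pow_eq_one (n := Nat.card G) ?_ Nat.card_pos.ne'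
  rw [← map_pow, pow_card_eq_one', map_one]

theorem twist_csys (hG : CSys θ q α) (φ : X → G) (ψ : G →* ℂ) :
    CSys θ q (fun v i => ψ (φ v) * α v i) where
  cnt := hG.cnt
  two_le := hG.two_le
  sum := hG.sum
  le := fun v i => by
    rw [norm_mul, norm_ch, one_mul]
    exact hG.le v i

/-- the rotated sum over the pairs `(v, k)` with `φ(v)^k = h` -/
noncomputable def SG (q : X → ℕ) (α : X → Fin d → ℂ) (φ : X → G) (s₀ : ℂ) (γ T : ℝ) (h : G) : ℂ :=
  ∑' x : X × ℕ, Set.indicator {x : X × ℕ | φ x.1 ^ (x.2 + 1) = h} (tm q α s₀ γ T) x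

theorem SG_summable (hG : CSys θ q α) {s₀ : ℂ} (hs₀ : θ ≤ s₀.re) (φ : X → G) (γ : ℝ) {T : ℝ}
    (hT : 0 < T) (h : G) :
    Summable (Set.indicator {x : X × ℕ | φ x.1 ^ (x.2 + 1) = h} (tm q α s₀ γ T)) :=
  (hG.tm_summable hs₀ γ hT).of_norm.indicator _

theorem tm_twist (q : X → ℕ) (α : X → Fin d → ℂ) (φ : X → G) (ψ : G →* ℂ) (s₀ : ℂ) (γ T : ℝ)
    (x : X × ℕ) : tm q (fun v i => ψ (φ v) * α v i) s₀ γ T x =
      ψ (φ x.1 ^ (x.2 + 1)) * tm q α s₀ γ T x := by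
  unfold tm
  have e1 : ∑ i, (ψ (φ x.1) * α x.1 i) ^ (x.2 + 1) =
      ψ (φ x.1 ^ (x.2 + 1)) * ∑ i, α x.1 i ^ (x.2 + 1) := by
    rw [Finset.mul_sum, map_pow]
    exact Finset.sum_congr rfl fun i _ => mul_pow _ _ _
  rw [e1]
  ring

/-- the sum of a twist as a combination of the sums of the elements -/
theorem SG_sum (hG : CSys θ q α) {s₀ : ℂ} (hs₀ : θ ≤ s₀.re) (φ : X → G) (ψ : G →* ℂ) (γ : ℝ) {T : ℝ}
    (hT : 0 < T) : Su q (fun v i => ψ (φ v) * α v i) s₀ γ T = ∑ᶠ h : G, ψ h * SG q α φ s₀ γ T h := by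
  classical
  have := Fintype.ofFinite G
  rw [finsum_eq_sum_of_fintype]
  unfold Su SG
  have h1 : ∀ x : X × ℕ, tm q (fun v i => ψ (φ v) * α v i) s₀ γ T x =
      ∑ h : G, ψ h * Set.indicator {x : X × ℕ | φ x.1 ^ (x.2 + 1) = h} (tm q α s₀ γ T) x := by
    intro x
    rw [tm_twist, Finset.sum_eq_single (φ x.1 ^ (x.2 + 1))]
    · rw [Set.indicator_of_mem (by simp)]
    · intro h _ hne
      rw [Set.indicator_of_notMem (by simpa using hne.symm), mul_zero]
    · intro h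
      exact absurd (Finset.mem_univ _) h
  rw [tsum_congr h1, Summable.tsum_finsetSum fun h _ => (SG_summable hG hs₀ φ γ hT h).mul_left _]
  exact Finset.sum_congr rfl fun h _ => tsum_mul_left

/-- the sum of the neutral element -/
theorem SG_one (hG : CSys θ q α) {s₀ : ℂ} (hs₀ : θ ≤ s₀.re) (φ : X → G) (γ : ℝ) {T : ℝ}
    (hT : 0 < T) : SG q α φ s₀ γ T 1 =
      (∑ᶠ ψ : G →* ℂ, Su q (fun v i => ψ (φ v) * α v i) s₀ γ T) / Nat.card G := by
  classical
  have := Fintype.ofFinite G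
  have := Fintype.ofFinite (G →* ℂ)
  rw [finsum_eq_sum_of_fintype]
  have h1 : ∑ ψ : G →* ℂ, Su q (fun v i => ψ (φ v) * α v i) s₀ γ T =
      ∑ h : G, (∑ ψ : G →* ℂ, ψ h) * SG q α φ s₀ γ T h := by
    rw [Finset.sum_congr rfl fun ψ _ => SG_sum hG hs₀ φ ψ γ hT]
    simp only [finsum_eq_sum_of_fintype]
    rw [Finset.sum_comm]
    exact Finset.sum_congr rfl fun h _ => by rw [Finset.sum_mul]
  rw [h1]
  have h2 : ∀ h : G, ∑ ψ : G →* ℂ, ψ h = if h = 1 then (Nat.card G : ℂ) else 0 := by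
    intro h
    rw [← orth_ch h, finsum_eq_sum_of_fintype]
  simp only [h2]
  rw [Finset.sum_eq_single (1 : G)]
  · rw [if_pos rfl]
    have := card_ne (G := G)
    field_simp
  · intro h _ hne
    rw [if_neg hne, zero_mul]
  · intro h
    exact absurd (Finset.mem_univ _) h

end Pool.Agent.X298.ST
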