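import Mathlib.NumberTheory.NumberField.Basic
import Mathlib.NumberTheory.NumberField.Ideal.Basic
import Mathlib.RingTheory.DedekindDomain.Ideal.Basic
import Mathlib.FieldTheory.Galois.IsGaloisGroup
import Mathlib.Analysis.Meromorphic.TrailingCoefficient
import Mathlib.Analysis.SpecialFunctions.Gamma.Basic
import Mathlib.Analysis.SpecialFunctions.Pow.Complex
import Mathlib.MeasureTheory.Integral.Bochner.Set
import Mathlib.Algebra.Group.Conj

/-!
# Artin `L`-series and rotated sums over Frobenius cosets: definitions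
-/

set_option autoImplicit false

open Filter Topology
open IsDedekindDomain NumberField

namespace Pool.Agent.X298.ST

variable {K L : Type} [Field K] [NumberField K] [Field L] [NumberField L] [Algebra K L]

/-- The finite places of `K` outside of `S`. -/
abbrev Places (S : Set (HeightOneSpectrum (𝓞 K))) : Type := {v : HeightOneSpectrum (𝓞 K) // v ∉ S}

/-- The norm `q_v`. -/
noncomputable def nrm {S : Set (HeightOneSpectrum (𝓞 K))} (v : Places S) : ℕ := Ideal.absNorm v.1.asIdeal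

/-- `P v` is a prime ideal of `𝓞 L` above `v`. -/
def IsAbove {S : Set (HeightOneSpectrum (𝓞 K))} (P : Places S → Ideal (𝓞 L)) : Prop :=
  ∀ v, (P v).IsPrime ∧ (P v).comap (algebraMap (𝓞 K) (𝓞 L)) = v.1.asIdeal

/-- The set `Frob_v^k` of the elements of the Galois group which act as `x ↦ x^(q_v^k)` modulo `P v`: a coset of the inertia
group, for unramified `v` the `k`-th power of the Frobenius automorphism. -/
def frob {S : Set (HeightOneSpectrum (𝓞 K))} (P : Places S → Ideal (𝓞 L)) (v : Places S) (k : ℕ) :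
    Set (L ≃ₐ[K] L) :=
  {g | ∀ x : 𝓞 L, g • x - x ^ (nrm v ^ k) ∈ P v}

/-- `f(v^k)`: the mean of `f` over `Frob_v^k`. -/
noncomputable def value {S : Set (HeightOneSpectrum (𝓞 K))} (P : Places S → Ideal (𝓞 L))
    (f : (L ≃ₐ[K] L) → ℂ) (v : Places S) (k : ℕ) : ℂ :=
  (∑ᶠ g ∈ frob P v k, f g) / (frob P v k).ncard

/-- `log L_S(s, f) = ∑_{v ∉ S} ∑_{k ≥ 1} f(v^k) q_v^{-ks} / k` (Artin). -/
noncomputable def logL {S : Set (HeightOneSpectrum (𝓞 K))} (P : Places S → Ideal (𝓞 L))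
    (f : (L ≃ₐ[K] L) → ℂ) (s : ℂ) : ℂ :=
  ∑' x : Places S × ℕ, value P f x.1 (x.2 + 1) * ((nrm x.1 : ℂ) ^ (-s)) ^ (x.2 + 1) / (x.2 + 1)

/-- `Λ` is the `L`-function `L_S(s, f)`: the exponential of Artin's series for `Re s > 1`, continued to a function
meromorphic at the points of the segment `[0, 1]`. -/
structure IsArtinL {S : Set (HeightOneSpectrum (𝓞 K))} (P : Places S → Ideal (𝓞 L))
    (f : (L ≃ₐ[K] L) → ℂ) (Λ : ℂ → ℂ) : Prop where
  eq : ∀ s : ℂ, 1 < s.re → Λ s = Complex.exp (logL P f s)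
  mero : ∀ x : ℝ, 0 ≤ x → x ≤ 1 → MeromorphicAt Λ (x : ℂ)

/-- The term `f(v^k) e^{iγ k log q_v / T} / (k Γ(1 + k log q_v / T))`, `v = x.1`, `k = x.2 + 1`. -/
noncomputable def term {S : Set (HeightOneSpectrum (𝓞 K))} (P : Places S → Ideal (𝓞 L))
    (f : (L ≃ₐ[K] L) → ℂ) (γ T : ℝ) (x : Places S × ℕ) : ℂ :=
  value P f x.1 (x.2 + 1) * Complex.exp ((γ * ((x.2 + 1) * Real.log (nrm x.1) / T) : ℝ) * Complex.I) /
    (((x.2 + 1) * Real.Gamma (1 + (x.2 + 1) * Real.log (nrm x.1) / T) : ℝ) : ℂ)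

/-- The rotated sum `S_f(T)`. -/
noncomputable def rotated {S : Set (HeightOneSpectrum (𝓞 K))} (P : Places S → Ideal (𝓞 L))
    (f : (L ≃ₐ[K] L) → ℂ) (γ T : ℝ) : ℂ := ∑' x, term P f γ T x

/-- The rotated sum `S_C(T)` of a conjugacy class `C`. -/
noncomputable def classSum {S : Set (HeightOneSpectrum (𝓞 K))} (P : Places S → Ideal (𝓞 L))
    (γ T : ℝ) (C : ConjClasses (L ≃ₐ[K] L)) : ℂ :=
  open Classical in rotated P (fun g => if ConjClasses.mk g = C then 1 else 0) γ T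

/-- The constant `Λ(γ) = ∫_0^∞ (e^{-t} - e^{iγt} / Γ(1 + t)) dt / t`. -/
noncomputable def Lambda (γ : ℝ) : ℂ := ∫ t in Set.Ioi (0 : ℝ),
  (Complex.exp (-(t : ℂ)) - Complex.exp ((γ * t : ℝ) * Complex.I) * ((Real.Gamma (1 + t))⁻¹ : ℝ)) / t

/-- The approximation `B_f(T) = R exp(r Λ(γ) - S_f(T)) / T^r` of `R / L_S^*(0, f)`. -/
noncomputable def approx {S : Set (HeightOneSpectrum (𝓞 K))} (P : Places S → Ideal (𝓞 L))
    (f : (L ≃ₐ[K] L) → ℂ) (γ : ℝ) (r : ℤ) (R : ℂ) (T : ℝ) : ℂ :=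
  R * Complex.exp (r * Lambda γ - rotated P f γ T) / (T : ℂ) ^ r

/-- the leading coefficient `L_S^*(0, f)` of `Λ` at `0` -/
noncomputable def lead (Λ : ℂ → ℂ) : ℂ := meromorphicTrailingCoeffAt Λ 0

end Pool.Agent.X298.ST
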