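import Mathlib.Analysis.Fourier.FiniteAbelian.PontryaginDuality
import Mathlib.NumberTheory.NumberField.Basic
import Mathlib.NumberTheory.NumberField.InfinitePlace.Embeddings
import Mathlib.RingTheory.RootsOfUnity.PrimitiveRoots
import Mathlib.RingTheory.Trace.Basic
import Mathlib.Analysis.Asymptotics.Lemmas

/-!
# Fourier coefficients on a finite abelian group, rationality and lattices
-/

set_option autoImplicit false

open Filter Topology Asymptotics

namespace Pool.Agent.X298.ST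

variable {G : Type} [CommGroup G] [Finite G]

/-- characters as additive characters of `Additive G` -/
def chEquiv : AddChar (Additive G) ℂ ≃ (G →* ℂ) := AddChar.toMonoidHomEquiv

theorem chEquiv_apply (ψ : AddChar (Additive G) ℂ) (g : G) : chEquiv ψ g = ψ (Additive.ofMul g) := rfl

instance : Finite (G →* ℂ) := Finite.of_equiv _ (chEquiv (G := G))

/-- the coefficient of `g` of the element of `ℂ[G]` with the values `x ψ` at the characters -/
noncomputable def coeff (x : (G →* ℂ) → ℂ) (g : G) : ℂ :=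
  (∑ᶠ ψ : G →* ℂ, ψ g⁻¹ * x ψ) / Nat.card G

theorem card_ne : (Nat.card G : ℂ) ≠ 0 := by
  exact_mod_cast Nat.card_pos.ne'

open Classical in
/-- orthogonality, sum over the characters -/
theorem orth_ch (g : G) :
    ∑ᶠ ψ : G →* ℂ, ψ g = if g = 1 then (Nat.card G : ℂ) else 0 := by
  classical
  have := Fintype.ofFinite G
  have := Fintype.ofFinite (G →* ℂ)
  have : Fintype (Additive G) := inferInstanceAs (Fintype G)
  rw [finsum_eq_sum_of_fintype, ← (chEquiv (G := G)).sum_comp]
  have h1 := AddChar.sum_apply_eq_ite (α := Additive G) (Additive.ofMul g)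
  have h2 : (∑ ψ : AddChar (Additive G) ℂ, (chEquiv ψ) g) =
      ∑ ψ : AddChar (Additive G) ℂ, ψ (Additive.ofMul g) := rfl
  rw [h2]
  have h3 : (Additive.ofMul g = 0) ↔ g = 1 := ofMul_eq_zero
  have h4 : (Nat.card G : ℂ) = (Fintype.card (Additive G) : ℂ) := by
    have h5 : Nat.card G = Fintype.card (Additive G) := by
      rw [← Nat.card_eq_fintype_card]
      rfl
    rw [h5]
  rw [h4]
  by_cases hg : g = 1
  · rw [if_pos hg]
    rw [if_pos (h3.2 hg)] at h1
    exact h1
  · rw [if_neg hg]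
    rw [if_neg (fun h => hg (h3.1 h))] at h1
    exact h1

open Classical in
/-- orthogonality, sum over the group -/
theorem orth_gr (ψ : G →* ℂ) :
    ∑ᶠ g : G, ψ g = if ψ = 1 then (Nat.card G : ℂ) else 0 := by
  classical
  have := Fintype.ofFinite G
  have : Fintype (Additive G) := inferInstanceAs (Fintype G)
  rw [finsum_eq_sum_of_fintype]
  have h1 := AddChar.sum_eq_ite ((chEquiv (G := G)).symm ψ)
  have h2 : (∑ g : G, ψ g) = ∑ a : Additive G, (chEquiv (G := G)).symm ψ a :=
    Fintype.sum_equiv Additive.ofMul _ _ fun g => rfl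
  rw [h2]
  have h3 : (chEquiv (G := G)).symm ψ = 0 ↔ ψ = 1 := by
    rw [Equiv.symm_apply_eq]
    constructor
    · intro h
      rw [h]
      ext g
      rfl
    · intro h
      rw [h]
      ext g
      rfl
  have h4 : (Nat.card G : ℂ) = (Fintype.card (Additive G) : ℂ) := by
    have h5 : Nat.card G = Fintype.card (Additive G) := by
      rw [← Nat.card_eq_fintype_card]
      rfl
    rw [h5]
  rw [h4]
  by_cases hg : ψ = 1
  · rw [if_pos hg]
    rw [if_pos (h3.2 hg)] at h1
    exact h1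
  · rw [if_neg hg]
    rw [if_neg (fun h => hg (h3.1 h))] at h1
    exact h1

theorem ch_inv (ψ : G →* ℂ) (g : G) : ψ g * ψ g⁻¹ = 1 := by
  rw [← map_mul, mul_inv_cancel, map_one]

/-- Fourier inversion -/
theorem inversion (x : (G →* ℂ) → ℂ) (φ : G →* ℂ) : ∑ᶠ g : G, φ g * coeff x g = x φ := by
  classical
  have := Fintype.ofFinite G
  have := Fintype.ofFinite (G →* ℂ)
  unfold coeff
  rw [finsum_eq_sum_of_fintype]
  simp only [finsum_eq_sum_of_fintype]
  have h1 : ∀ ψ : G →* ℂ, ∑ g : G, φ g * ψ g⁻¹ = if ψ = φ then (Nat.card G : ℂ) else 0 := by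
    intro ψ
    set ω : G →* ℂ :=
      { toFun := fun g => φ g * ψ g⁻¹
        map_one' := by simp
        map_mul' := fun a b => by
          rw [map_mul, mul_inv, map_mul]
          ring } with hω
    have h2 := orth_gr ω
    rw [finsum_eq_sum_of_fintype] at h2
    have h3 : (∑ g : G, φ g * ψ g⁻¹) = ∑ g : G, ω g := rfl
    rw [h3, h2]
    have h4 : ω = 1 ↔ ψ = φ := by
      constructor
      · intro h
        ext g
        have h5 : φ g * ψ g⁻¹ = 1 := by
          have := DFunLike.congr_fun h g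
          exact this
        have h6 := ch_inv ψ g
        have h7 : ψ g⁻¹ ≠ 0 := right_ne_zero_of_mul_eq_one h6
        exact mul_right_cancel₀ h7 (h6.trans h5.symm)
      · intro h
        ext g
        show φ g * ψ g⁻¹ = 1
        rw [h]
        exact ch_inv φ g
    simp only [h4]
  calc ∑ g : G, φ g * ((∑ ψ : G →* ℂ, ψ g⁻¹ * x ψ) / (Nat.card G : ℂ))
      = (∑ g : G, ∑ ψ : G →* ℂ, (φ g * ψ g⁻¹) * x ψ) / (Nat.card G : ℂ) := by
        rw [Finset.sum_div]
        refine Finset.sum_congr rfl fun g _ => ?_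
        rw [← mul_div_assoc, Finset.mul_sum]
        congr 1
        exact Finset.sum_congr rfl fun ψ _ => by ring
    _ = (∑ ψ : G →* ℂ, (∑ g : G, φ g * ψ g⁻¹) * x ψ) / (Nat.card G : ℂ) := by
        rw [Finset.sum_comm]
        congr 1
        exact Finset.sum_congr rfl fun ψ _ => by rw [Finset.sum_mul]
    _ = x φ := by
        simp only [h1]
        rw [Finset.sum_eq_single φ]
        · rw [if_pos rfl]
          have := card_ne (G := G)
          field_simp
        · intro ψ _ h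
          rw [if_neg h, zero_mul]
        · intro h
          exact absurd (Finset.mem_univ _) h

section rational

variable {E : Type} [Field E] [NumberField E]

/-- an element with equal conjugates is rational -/
theorem rat_of_const {y : E} {c : ℂ} (h : ∀ τ : E →+* ℂ, τ y = c) : ∃ r : ℚ, c = r := by
  have h1 : algebraMap ℚ ℂ (Algebra.trace ℚ E y) = ∑ σ : E →ₐ[ℚ] ℂ, σ y :=
    trace_eq_sum_embeddings ℂ
  have h2 : ∑ σ : E →ₐ[ℚ] ℂ, σ y = (Fintype.card (E →ₐ[ℚ] ℂ) : ℂ) * c := by
    rw [Finset.sum_congr rfl fun σ _ => (h σ.toRingHom : σ y = c), Finset.sum_const, Finset.card_univ,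
      nsmul_eq_mul]
  have h3 : Fintype.card (E →ₐ[ℚ] ℂ) ≠ 0 := by
    rw [AlgHom.card]
    exact Module.finrank_pos.ne'
  have h4 : (Fintype.card (E →ₐ[ℚ] ℂ) : ℂ) ≠ 0 := by exact_mod_cast h3
  refine ⟨Algebra.trace ℚ E y / Fintype.card (E →ₐ[ℚ] ℂ), ?_⟩
  have h5 : ((Algebra.trace ℚ E y : ℚ) : ℂ) = (Fintype.card (E →ₐ[ℚ] ℂ) : ℂ) * c := by
    rw [← h2, ← h1]
    rfl
  push_cast
  rw [h5]
  field_simp

/-- **characters with values in `E`: algebraicity and equivariance of the values means rationality of the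
coefficients** -/
theorem rational_iff {ζ : E} (hζ : IsPrimitiveRoot ζ (Nat.card G)) (x : (G →* ℂ) → ℂ) :
    (∀ ψ : G →* E, ∃ y : E, ∀ τ : E →+* ℂ, x ((τ : E →* ℂ).comp ψ) = τ y) ↔
      ∀ g : G, ∃ r : ℚ, coeff x g = r := by
  classical
  have := Fintype.ofFinite G
  have := Fintype.ofFinite (G →* ℂ)
  constructor
  · intro h g
    choose y hy using h
    -- the characters with values in `E`
    have hbij : ∀ τ : E →+* ℂ, Function.Bijective (fun ψ : G →* E => (τ : E →* ℂ).comp ψ) := by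
      intro τ
      constructor
      · intro ψ φ h
        ext a
        exact τ.injective (DFunLike.congr_fun h a)
      · intro φ
        have h1 : ∀ a, ∃ e : E, τ e = φ a := by
          intro a
          have h2 : φ a ^ Nat.card G = 1 := by
            rw [← map_pow, pow_card_eq_one', map_one]
          have h3 : IsPrimitiveRoot (τ ζ) (Nat.card G) := hζ.map_of_injective τ.injective
          have : NeZero (Nat.card G) := ⟨Nat.card_pos.ne'⟩
          obtain ⟨i, _, hi⟩ := h3.eq_pow_of_pow_eq_one h2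
          exact ⟨ζ ^ i, by rw [map_pow]; exact hi⟩
        choose e he using h1
        refine ⟨⟨⟨e, ?_⟩, ?_⟩, ?_⟩
        · apply τ.injective
          rw [he, map_one, map_one]
        · intro a b
          apply τ.injective
          show τ (e (a * b)) = τ (e a * e b)
          rw [he, map_mul, map_mul, he, he]
        · ext a
          exact he a
    have : Finite (G →* E) := by
      obtain ⟨τ⟩ : Nonempty (E →+* ℂ) := inferInstance
      exact Finite.of_injective _ (hbij τ).1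
    have := Fintype.ofFinite (G →* E)
    refine rat_of_const (E := E) (y := (∑ ψ : G →* E, ψ g⁻¹ * y ψ) / (Nat.card G : E)) fun τ => ?_
    unfold coeff
    rw [map_div₀, map_natCast, map_sum, finsum_eq_sum_of_fintype]
    congr 1
    rw [← (Equiv.ofBijective _ (hbij τ)).sum_comp]
    refine Finset.sum_congr rfl fun ψ _ => ?_
    rw [map_mul]
    have h2 : (Equiv.ofBijective _ (hbij τ)) ψ = (τ : E →* ℂ).comp ψ := rfl
    rw [h2, hy ψ τ]
    rfl
  · intro h ψ
    choose r hr using h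
    refine ⟨∑ g : G, ψ g * (r g : E), fun τ => ?_⟩
    rw [← inversion x, finsum_eq_sum_of_fintype, map_sum]
    refine Finset.sum_congr rfl fun g _ => ?_
    rw [hr g, map_mul, map_ratCast]
    rfl

end rational

/-- rational limits and integers -/
theorem latticeZ {I : Type} [Finite I] {b : I → ℝ → ℂ} {A : I → ℂ}
    (hb : ∀ i, (fun T : ℝ => b i T - A i) =O[atTop] (fun T : ℝ => 1 / T)) :
    ((∀ i, ∃ r : ℚ, A i = r) ↔ ∃ N : ℕ, 1 ≤ N ∧ ∀ ε : ℝ, 0 < ε → ∀ T₀ : ℝ, ∃ T ≥ T₀, ∀ i,
      ∃ z : ℤ, ‖N * b i T - z‖ < ε) ∧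
    ((∀ i, ∃ r : ℚ, A i = r) ↔ ∃ N : ℕ, 1 ≤ N ∧ ∃ (z : I → ℤ) (C T₀ : ℝ), ∀ T ≥ T₀,
      ∀ i, ‖N * b i T - z i‖ ≤ C / T) := by
  have := Fintype.ofFinite I
  have hlim : ∀ i, Tendsto (b i) atTop (𝓝 (A i)) := fun i => by
    have h1 := (hb i).trans_tendsto (tendsto_const_nhds.div_atTop tendsto_id)
    have h2 := h1.add_const (A i)
    simpa using h2
  have hac : (∀ i, ∃ r : ℚ, A i = r) → ∃ N : ℕ, 1 ≤ N ∧ ∃ (z : I → ℤ) (C T₀ : ℝ), ∀ T ≥ T₀,
      ∀ i, ‖N * b i T - z i‖ ≤ C / T := by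
    intro h
    choose r hr using h
    set N : ℕ := ∏ i, (r i).den with hN
    have hN1 : 1 ≤ N := Nat.one_le_iff_ne_zero.2 (Finset.prod_ne_zero_iff.2 fun i _ => (r i).den_nz)
    have hz : ∀ i, ∃ z : ℤ, (N : ℂ) * A i = z := by
      intro i
      obtain ⟨k, hk⟩ : (r i).den ∣ N := Finset.dvd_prod_of_mem _ (Finset.mem_univ i)
      refine ⟨k * (r i).num, ?_⟩
      rw [hr i, hk]
      have h1 : ((r i : ℚ) : ℂ) = ((r i).num : ℂ) / ((r i).den : ℂ) := by
        exact_mod_cast congrArg (Rat.cast : ℚ → ℂ) (Rat.num_div_den (r i)).symm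
      have h2 : ((r i).den : ℂ) ≠ 0 := by exact_mod_cast (r i).den_nz
      rw [h1]
      push_cast
      field_simp
    choose z hz using hz
    refine ⟨N, hN1, z, ?_⟩
    have h2 : ∀ i, ∃ C : ℝ, ∀ᶠ T : ℝ in atTop, ‖N * b i T - z i‖ ≤ C / T := by
      intro i
      obtain ⟨C, hC⟩ := Asymptotics.isBigO_iff.1 (hb i)
      refine ⟨N * C, ?_⟩
      filter_upwards [hC, eventually_gt_atTop (0 : ℝ)] with T hT hT0
      have e1 : (N : ℂ) * b i T - z i = N * (b i T - A i) := by
        rw [← hz i]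
        ring
      rw [e1, norm_mul, Complex.norm_natCast]
      rw [Real.norm_eq_abs, abs_of_pos (by positivity)] at hT
      calc (N : ℝ) * ‖b i T - A i‖ ≤ N * (C * (1 / T)) := by gcongr
        _ = _ := by ring
    choose C hC using h2
    obtain ⟨T₀, hT₀⟩ := eventually_atTop.1 ((eventually_all.2 hC).and (eventually_gt_atTop (0 : ℝ)))
    refine ⟨∑ i, |C i|, T₀, fun T hT i => ?_⟩
    obtain ⟨h4, h5⟩ := hT₀ T hT
    refine (h4 i).trans ?_
    gcongr
    exact (le_abs_self _).trans (Finset.single_le_sum (f := fun i => |C i|) (fun _ _ => abs_nonneg _)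
      (Finset.mem_univ i))
  have hcb : (∃ N : ℕ, 1 ≤ N ∧ ∃ (z : I → ℤ) (C T₀ : ℝ), ∀ T ≥ T₀,
      ∀ i, ‖N * b i T - z i‖ ≤ C / T) → ∃ N : ℕ, 1 ≤ N ∧ ∀ ε : ℝ, 0 < ε → ∀ T₀ : ℝ, ∃ T ≥ T₀,
      ∀ i, ∃ z : ℤ, ‖N * b i T - z‖ < ε := by
    rintro ⟨N, hN, z, C, T₀, h⟩
    refine ⟨N, hN, fun ε hε T₁ => ?_⟩
    set T : ℝ := max (max T₀ T₁) (|C| / ε + 1) with hT
    have h1 : T₀ ≤ T := (le_max_left _ _).trans (le_max_left _ _)
    have h2 : T₁ ≤ T := (le_max_right _ _).trans (le_max_left _ _)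
    have h3 : |C| / ε + 1 ≤ T := le_max_right _ _
    have h4 : 0 ≤ |C| / ε := by positivity
    have h5 : 0 < T := by linarith
    refine ⟨T, h2, fun i => ⟨z i, (h T h1 i).trans_lt ?_⟩⟩
    have h6 : |C| / ε < T := by linarith
    rw [div_lt_iff₀ hε] at h6
    rw [div_lt_iff₀ h5]
    calc C ≤ |C| := le_abs_self _
      _ < T * ε := h6
      _ = ε * T := mul_comm _ _
  have hba : (∃ N : ℕ, 1 ≤ N ∧ ∀ ε : ℝ, 0 < ε → ∀ T₀ : ℝ, ∃ T ≥ T₀,
      ∀ i, ∃ z : ℤ, ‖N * b i T - z‖ < ε) → ∀ i, ∃ r : ℚ, A i = r := by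
    rintro ⟨N, hN, h⟩ i
    have hN0 : (0 : ℝ) < N := by exact_mod_cast hN
    have h1 : ∀ ε : ℝ, 0 < ε → ∃ z : ℤ, ‖N * A i - z‖ < ε := by
      intro ε hε
      have h2 : ∀ᶠ T : ℝ in atTop, ‖N * b i T - N * A i‖ < ε / 2 := by
        have h3 : Tendsto (fun T => ‖N * b i T - N * A i‖) atTop (𝓝 0) := by
          have h4 := ((hlim i).const_mul (N : ℂ)).sub_const ((N : ℂ) * A i)
          rw [sub_self] at h4
          simpa using h4.norm
        exact h3.eventually (gt_mem_nhds (half_pos hε))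
      obtain ⟨T₀, hT₀⟩ := eventually_atTop.1 h2
      obtain ⟨T, hT, hz⟩ := h (ε / 2) (half_pos hε) T₀
      obtain ⟨z, hz⟩ := hz i
      refine ⟨z, ?_⟩
      have e1 : (N : ℂ) * A i - z = (N * b i T - z) - (N * b i T - N * A i) := by ring
      rw [e1]
      refine (norm_sub_le _ _).trans_lt ?_
      have := hT₀ T hT
      linarith
    obtain ⟨z, hz⟩ := h1 (1 / 2) (by norm_num)
    have h3 : ∀ ε : ℝ, 0 < ε → ‖N * A i - z‖ < ε := by
      intro ε hε
      obtain ⟨y, hy⟩ := h1 (min ε (1 / 2)) (lt_min hε (by norm_num))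
      have hzy : z = y := by
        have h4 : ‖((z - y : ℤ) : ℂ)‖ < 1 := by
          have e1 : ((z - y : ℤ) : ℂ) = (N * A i - y) - (N * A i - z) := by
            push_cast
            ring
          rw [e1]
          refine (norm_sub_le _ _).trans_lt ?_
          have := min_le_right ε (1 / 2)
          linarith
        rw [Complex.norm_intCast] at h4
        have h5 : |z - y| < 1 := by exact_mod_cast h4
        have h6 := Int.abs_lt_one_iff.1 h5
        omega
      rw [hzy]
      exact hy.trans_le (min_le_left _ _)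
    have h4 : N * A i - z = 0 := by
      by_contra h0
      exact lt_irrefl _ (h3 _ (norm_pos_iff.2 h0))
    refine ⟨(z : ℚ) / N, ?_⟩
    have h5 : (N : ℂ) ≠ 0 := by exact_mod_cast hN0.ne'
    push_cast
    rw [← sub_eq_zero.1 h4]
    field_simp
  exact ⟨⟨fun h => hcb (hac h), hba⟩, ⟨hac, fun h => hba (hcb h)⟩⟩

end Pool.Agent.X298.ST
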